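import Mathlib.Analysis.SpecialFunctions.Pow.Deriv
import Mathlib.Topology.Order.IntermediateValue
import Mathlib.Combinatorics.SimpleGraph.DegreeSum
import Mathlib.Data.Set.Card
import Pool.Agent.MP_dd6dde_co.Basic

/-! Sums over ordered pairs, the derivative of `h_G`, and a breadth first tree. -/

namespace Pool.Agent.MP_dd6dde_co.Thr

open Finset Filter Topology
open scoped Classical

variable {V : Type} [Fintype V] {G : SimpleGraph V}

variable (G) in
/-- Ordered adjacent pairs. -/
noncomputable def EE : Finset (V × V) := univ.filter fun e => G.Adj e.1 e.2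

variable (V) in
/-- Ordered pairs of distinct vertices. -/
noncomputable def PP : Finset (V × V) := univ.filter fun e => e.1 ≠ e.2

variable (G) in
/-- The product attached to an ordered pair. -/
noncomputable def pe (e : V × V) : ℝ := ((nu G e.1 e.2 * nu G e.2 e.1 : ℕ) : ℝ)

variable (G) in
/-- The distance of an ordered pair. -/
noncomputable def de (e : V × V) : ℝ := (G.dist e.1 e.2 : ℝ)

theorem mem_EE {e : V × V} : e ∈ EE G ↔ G.Adj e.1 e.2 := by simp [EE]

theorem mem_PP {e : V × V} : e ∈ PP V ↔ e.1 ≠ e.2 := by simp [PP]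

theorem two_h' (α : ℝ) : 2 * hG G α = ∑ e ∈ EE G, pe G e ^ α - ∑ e ∈ PP V, de G e ^ α := by
  rw [two_h]
  simp only [psi, sum_sub_distrib, EE, PP, sum_filter, Fintype.sum_prod_type, pe, de]

theorem one_le_pe {e : V × V} (h : e ∈ EE G) : 1 ≤ pe G e := by
  have h := mem_EE.1 h
  unfold pe
  exact_mod_cast Nat.mul_pos (nu_pos h) (nu_pos h.symm)

theorem one_le_de (hc : G.Connected) {e : V × V} (h : e ∈ PP V) : 1 ≤ de G e := by
  unfold de
  exact_mod_cast hc.pos_dist_of_ne (mem_PP.1 h)

theorem card_EE : (EE G).card = 2 * G.edgeSet.ncard := by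
  have h := SimpleGraph.two_mul_card_edgeFinset G
  rw [← SimpleGraph.coe_edgeFinset, Set.ncard_coe_finset]
  exact h.symm

theorem deriv_h (hc : G.Connected) (α : ℝ) : HasDerivAt (hG G)
    ((∑ e ∈ EE G, pe G e ^ α * Real.log (pe G e) -
      ∑ e ∈ PP V, de G e ^ α * Real.log (de G e)) / 2) α := by
  have e : hG G = fun t => (∑ e ∈ EE G, pe G e ^ t - ∑ e ∈ PP V, de G e ^ t) / 2 := by
    funext t
    rw [← two_h']
    ring
  rw [e]
  refine HasDerivAt.div_const (HasDerivAt.sub ?_ ?_) 2
  · exact HasDerivAt.fun_sum fun e he =>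
      (Real.hasStrictDerivAt_const_rpow (by linarith [one_le_pe he]) α).hasDerivAt
  · exact HasDerivAt.fun_sum fun e he =>
      (Real.hasStrictDerivAt_const_rpow (by linarith [one_le_de hc he]) α).hasDerivAt

theorem cont_h (hc : G.Connected) : Continuous (hG G) :=
  continuous_iff_continuousAt.2 fun α => (deriv_h hc α).continuousAt

/-- A function whose derivative is positive at each zero has at most one zero. -/
theorem zero_unique {f f' : ℝ → ℝ} (hf : ∀ t, HasDerivAt f (f' t) t)
    (h : ∀ t, f t = 0 → 0 < f' t) {a b : ℝ} (ha : f a = 0) (hb : f b = 0) : ¬ a < b := by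
  intro hab
  have hcont : Continuous f := continuous_iff_continuousAt.2 fun t => (hf t).continuousAt
  have sl : ∀ c, f c = 0 → ∀ᶠ t in 𝓝[≠] c, 0 < f t / (t - c) := fun c hc => by
    have := (hf c).tendsto_slope.eventually (lt_mem_nhds (h c hc))
    refine this.mono fun t ht => ?_
    rwa [slope_def_field, hc, sub_zero] at ht
  obtain ⟨a1, h1, h2⟩ : ∃ a1, 0 < f a1 / (a1 - a) ∧ a1 ∈ Set.Ioo a b :=
    (((sl a ha).filter_mono (nhdsGT_le_nhdsNE a)).and (Ioo_mem_nhdsGT hab)).exists
  have h3 : 0 < f a1 := by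
    have := mul_pos h1 (sub_pos.2 h2.1)
    rwa [div_mul_cancel₀ _ (sub_pos.2 h2.1).ne'] at this
  have hK : IsCompact (Set.Icc a1 b ∩ f ⁻¹' {0}) :=
    isCompact_Icc.inter_right (isClosed_singleton.preimage hcont)
  obtain ⟨c, hc1, hc2⟩ := hK.exists_isLeast ⟨b, ⟨h2.2.le, le_rfl⟩, hb⟩
  have hc0 : f c = 0 := hc1.2
  have hlt : a1 < c := lt_of_le_of_ne hc1.1.1 fun e => by rw [e, hc0] at h3; exact lt_irrefl _ h3
  obtain ⟨t, h4, h5⟩ : ∃ t, 0 < f t / (t - c) ∧ t ∈ Set.Ioo a1 c :=
    (((sl c hc0).filter_mono (nhdsLT_le_nhdsNE c)).and (Ioo_mem_nhdsLT hlt)).exists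
  have h6 : f t < 0 := by
    have := mul_neg_of_pos_of_neg h4 (sub_neg.2 h5.2)
    rwa [div_mul_cancel₀ _ (sub_neg.2 h5.2).ne] at this
  obtain ⟨s, hs1, hs2⟩ := intermediate_value_Icc' h5.1.le hcont.continuousOn
    (show (0 : ℝ) ∈ Set.Icc (f t) (f a1) from ⟨h6.le, h3.le⟩)
  have := hc2 ⟨⟨hs1.1, hs1.2.trans (h5.2.le.trans hc1.1.2)⟩, hs2⟩
  linarith [hs1.2, h5.2]

omit [Fintype V] in
theorem dist_adj (hc : G.Connected) {u v : V} (h : G.Adj u v) (w : V) :
    G.dist w v ≤ G.dist w u + 1 := by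
  have := hc.dist_triangle (u := w) (v := u) (w := v)
  rwa [SimpleGraph.dist_eq_one_iff_adj.2 h] at this

omit [Fintype V] in
theorem exists_par (hc : G.Connected) (z : V) :
    ∃ par : V → V, ∀ v, v ≠ z → G.Adj (par v) v ∧ G.dist z (par v) + 1 = G.dist z v := by
  have : ∀ v, ∃ u, v ≠ z → G.Adj u v ∧ G.dist z u + 1 = G.dist z v := fun v => by
    by_cases h : v = z
    · exact ⟨v, fun h' => absurd h h'⟩
    obtain ⟨f, h0, hd, ha, hf⟩ := geo hc z v
    have hp := hc.pos_dist_of_ne (Ne.symm h)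
    refine ⟨f (G.dist z v - 1), fun _ => ⟨?_, ?_⟩⟩
    · have := ha (G.dist z v - 1) (by omega)
      rwa [Nat.sub_add_cancel hp, hd] at this
    · have := hf 0 (G.dist z v - 1) (by omega) (by omega)
      rw [h0] at this
      omega
  exact ⟨fun v => (this v).choose, fun v => (this v).choose_spec⟩

theorem tree_count (hc : G.Connected) {z : V} {par : V → V}
    (hp : ∀ v, v ≠ z → G.Adj (par v) v ∧ G.dist z (par v) + 1 = G.dist z v) (w x : V) :
    G.dist w x ≤ G.dist z w + ((univ.erase z).filter fun v =>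
      G.dist w (par v) < G.dist w v ∧ G.dist x v < G.dist x (par v)).card := by
  have key : ∀ k y, G.dist z y = k → G.dist z y + G.dist x y = G.dist z x →
      G.dist w y ≤ G.dist z w + ((univ.erase z).filter fun v => G.dist z v ≤ k ∧
        (G.dist w (par v) < G.dist w v ∧ G.dist x v < G.dist x (par v))).card := by
    intro k
    induction k with
    | zero =>
      intro y h1 _
      rw [← hc.dist_eq_zero_iff.1 h1, G.dist_comm]
      omega
    | succ k ih =>
      intro y h1 h2
      have hy : y ≠ z := fun e => by rw [e, SimpleGraph.dist_self] at h1; omega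
      obtain ⟨h3, h4⟩ := hp y hy
      have h5 := dist_adj hc h3.symm x
      have h6 := hc.dist_triangle (u := z) (v := par y) (w := x)
      rw [G.dist_comm (u := par y)] at h6
      have h7 := ih (par y) (by omega) (by omega)
      have h8 := dist_adj hc h3 w
      by_cases h9 : G.dist w (par y) < G.dist w y
      · have : ((univ.erase z).filter fun v => G.dist z v ≤ k ∧
            (G.dist w (par v) < G.dist w v ∧ G.dist x v < G.dist x (par v))).card <
          ((univ.erase z).filter fun v => G.dist z v ≤ k + 1 ∧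
            (G.dist w (par v) < G.dist w v ∧ G.dist x v < G.dist x (par v))).card := by
          refine card_lt_card ⟨fun v hv => ?_, fun hsub => ?_⟩
          · rw [mem_filter] at hv ⊢
            exact ⟨hv.1, by omega, hv.2.2⟩
          · have := hsub (mem_filter.2 ⟨mem_erase.2 ⟨hy, mem_univ y⟩, by omega, h9, by omega⟩)
            rw [mem_filter] at this
            omega
        omega
      · have : ((univ.erase z).filter fun v => G.dist z v ≤ k ∧
            (G.dist w (par v) < G.dist w v ∧ G.dist x v < G.dist x (par v))).card ≤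
          ((univ.erase z).filter fun v => G.dist z v ≤ k + 1 ∧
            (G.dist w (par v) < G.dist w v ∧ G.dist x v < G.dist x (par v))).card := by
          refine card_le_card fun v hv => ?_
          rw [mem_filter] at hv ⊢
          exact ⟨hv.1, by omega, hv.2.2⟩
        omega
  refine (key _ x rfl (by simp)).trans (Nat.add_le_add_left (card_le_card fun v hv => ?_) _)
  rw [mem_filter] at hv ⊢
  exact ⟨hv.1, hv.2.2⟩

theorem sq_dist_le (hc : G.Connected) (z x : V) : G.dist z x ^ 2 ≤ 2 * ∑ y, G.dist z y := by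
  obtain ⟨f, h0, -, -, hf⟩ := geo hc z x
  have h1 : ∀ i ∈ range (G.dist z x + 1), G.dist z (f i) = i := fun i hi => by
    have := hf 0 i (by omega) (by have := mem_range.1 hi; omega)
    rwa [h0] at this
  have h2 : ∑ i ∈ range (G.dist z x + 1), i = ∑ y ∈ (range (G.dist z x + 1)).image f, G.dist z y := by
    rw [sum_image fun i hi j hj e => by rw [← h1 i hi, ← h1 j hj, e]]
    exact (sum_congr rfl h1).symm
  have h3 := sum_range_id_mul_two (G.dist z x + 1)
  have h4 : ∑ y ∈ (range (G.dist z x + 1)).image f, G.dist z y ≤ ∑ y, G.dist z y :=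
    sum_le_sum_of_subset (subset_univ _)
  rw [Nat.add_sub_cancel] at h3
  nlinarith

theorem mul_rpow_le {x X α : ℝ} (hx : 0 ≤ x) (hX : x ≤ X) (h1 : α ≤ 1) :
    X ^ (α - 1) * x ≤ x ^ α := by
  rcases hx.eq_or_lt with rfl | hx
  · rw [mul_zero]; positivity
  · rw [show x ^ α = x ^ (α - 1) * x by rw [← Real.rpow_add_one hx.ne', sub_add_cancel]]
    exact mul_le_mul_of_nonneg_right (Real.rpow_le_rpow_of_nonpos hx hX (by linarith)) hx.le

theorem rpow_le_mul {x X α : ℝ} (hX : 0 < X) (hx : X ≤ x) (h1 : α ≤ 1) :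
    x ^ α ≤ X ^ (α - 1) * x := by
  have hx0 : 0 < x := by linarith
  rw [show x ^ α = x ^ (α - 1) * x by rw [← Real.rpow_add_one hx0.ne', sub_add_cancel]]
  exact mul_le_mul_of_nonneg_right (Real.rpow_le_rpow_of_nonpos hX hx (by linarith)) hx0.le

/-- The Gibbs inequality with two weights. -/
theorem gibbs {ι : Type} {E T : Finset ι} (hT : T ⊆ E) (x : ι → ℝ) (hx : ∀ e ∈ E, 0 < x e)
    {S M N : ℝ} (hS : ∑ e ∈ E, x e = S) (hS0 : 0 < S) (hM0 : 0 < M) (hN0 : 0 < N)
    (hM : (E.card : ℝ) ≤ M) (hN : (T.card : ℝ) ≤ N) :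
    S * Real.log (S / (2 * M)) + (∑ e ∈ T, x e) * Real.log (M / N) ≤
      ∑ e ∈ E, x e * Real.log (x e) := by
  have t : ∀ y a : ℝ, 0 < y → 0 < a → y - a + y * Real.log a ≤ y * Real.log y := fun y a hy ha => by
    have h1 := Real.log_le_sub_one_of_pos (div_pos ha hy)
    rw [Real.log_div ha.ne' hy.ne'] at h1
    have h2 := mul_le_mul_of_nonneg_left h1 hy.le
    have h3 : y * (a / y - 1) = a - y := by field_simp
    linarith
  have e1 : Real.log (S / (2 * N)) = Real.log (S / (2 * M)) + Real.log (M / N) := by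
    rw [← Real.log_mul (by positivity) (by positivity)]
    congr 1
    field_simp
  have h1 : ∑ e ∈ T, (x e - S / (2 * N) + x e * Real.log (S / (2 * N))) ≤
      ∑ e ∈ T, x e * Real.log (x e) :=
    sum_le_sum fun e he => t _ _ (hx e (hT he)) (by positivity)
  have h2 : ∑ e ∈ E \ T, (x e - S / (2 * M) + x e * Real.log (S / (2 * M))) ≤
      ∑ e ∈ E \ T, x e * Real.log (x e) :=
    sum_le_sum fun e he => t _ _ (hx e (mem_sdiff.1 he).1) (by positivity)
  rw [← sum_sdiff hT] at hS ⊢
  simp only [sum_add_distrib, sum_sub_distrib, ← sum_mul, sum_const, nsmul_eq_mul] at h1 h2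
  have h3 : (T.card : ℝ) * (S / (2 * N)) ≤ S / 2 := by
    have := mul_le_mul_of_nonneg_right hN (show 0 ≤ S / (2 * N) by positivity)
    rwa [show N * (S / (2 * N)) = S / 2 by field_simp] at this
  have h4 : ((E \ T).card : ℝ) * (S / (2 * M)) ≤ S / 2 := by
    have h5 : ((E \ T).card : ℝ) ≤ M := le_trans (by exact_mod_cast card_le_card sdiff_subset) hM
    have := mul_le_mul_of_nonneg_right h5 (show 0 ≤ S / (2 * M) by positivity)
    rwa [show M * (S / (2 * M)) = S / 2 by field_simp] at this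
  rw [e1] at h1
  have e2 : S * Real.log (S / (2 * M)) = (∑ e ∈ E \ T, x e) * Real.log (S / (2 * M)) +
      (∑ e ∈ T, x e) * Real.log (S / (2 * M)) := by rw [← add_mul, hS]
  linarith

end Pool.Agent.MP_dd6dde_co.Thr
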