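import Pool.Agent.MP_dd6dde_co.Thr.RealUp

/-! The real inequalities behind the sparse graphs with three zeros. -/

namespace Pool.Agent.MP_dd6dde_co.Thr

open Finset

/-- Growth of the power sums along the path. -/
theorem phi_growth {N : ℕ} (hN : 1 ≤ N) {α δ : ℝ} (hα : 1 / 2 ≤ α) (hδ : 0 ≤ δ) :
    (N : ℝ) ^ δ * (∑ i ∈ range (16 * N + 1), ((i : ℝ) + 1) ^ α + δ * (8 * (N : ℝ)) ^ (1 + α)) ≤
      ∑ i ∈ range (16 * N + 1), ((i : ℝ) + 1) ^ (α + δ) := by
  have hT : (1 : ℝ) ≤ N := by exact_mod_cast hN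
  set T : ℝ := (N : ℝ) with hTN
  have hT0 : 0 < T := by linarith
  have h1 : ∀ x : ℝ, 0 < x → T ^ δ * (x ^ α + δ * (x ^ α * Real.log (x / T))) ≤ x ^ (α + δ) := by
    intro x hx
    have e : x ^ (α + δ) = T ^ δ * (x ^ α * Real.exp (δ * Real.log (x / T))) := by
      rw [mul_comm δ, ← Real.rpow_def_of_pos (by positivity), Real.div_rpow hx.le hT0.le,
        Real.rpow_add hx]
      have : 0 < T ^ δ := by positivity
      field_simp
    rw [e]
    refine mul_le_mul_of_nonneg_left ?_ (by positivity)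
    have := mul_le_mul_of_nonneg_left (Real.add_one_le_exp (δ * Real.log (x / T)))
      (show 0 ≤ x ^ α by positivity)
    linarith
  have h2 : ∀ x : ℝ, 0 < x → -(2 * T ^ α) ≤ x ^ α * Real.log (x / T) := by
    intro x hx
    by_cases h : T ≤ x
    · have : 0 ≤ x ^ α * Real.log (x / T) :=
        mul_nonneg (by positivity) (Real.log_nonneg ((one_le_div hT0).2 h))
      have : 0 ≤ T ^ α := by positivity
      linarith
    · push Not at h
      have hy : 0 < x / T := by positivity
      have hy1 : x / T ≤ 1 := (div_le_one hT0).2 h.le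
      have e : x ^ α = T ^ α * (x / T) ^ α := by
        rw [Real.div_rpow hx.le hT0.le]
        have : 0 < T ^ α := by positivity
        field_simp
      have h3 : (x / T) ^ α ≤ (x / T) ^ (1 / 2 : ℝ) :=
        Real.rpow_le_rpow_of_exponent_ge hy hy1 hα
      have h4 : Real.log (x / T) ≤ 0 := Real.log_nonpos hy.le hy1
      have h5 := Real.abs_log_mul_self_rpow_lt (x / T) (1 / 2) hy hy1 (by norm_num)
      have h6 : -2 ≤ (x / T) ^ α * Real.log (x / T) := by
        have := mul_le_mul_of_nonpos_right h3 h4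
        have := (abs_lt.1 h5).1
        linarith
      rw [e, mul_assoc]
      have := mul_le_mul_of_nonneg_left h6 (show 0 ≤ T ^ α by positivity)
      linarith
  have h3 : ∀ x : ℝ, 8 * T ≤ x → 2 * (8 * T) ^ α ≤ x ^ α * Real.log (x / T) := by
    intro x hx
    have a1 : (8 * T) ^ α ≤ x ^ α := Real.rpow_le_rpow (by positivity) hx (by linarith)
    have a2 : 2 ≤ Real.log (x / T) := by
      have : Real.log (2 ^ 3) ≤ Real.log (x / T) :=
        Real.log_le_log (by norm_num) (by rw [le_div_iff₀ hT0]; linarith)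
      rw [Real.log_pow] at this
      have := log_two_gt
      push_cast at *
      linarith
    rw [mul_comm]
    exact mul_le_mul a1 a2 (by norm_num) ((by positivity : 0 ≤ (8 * T) ^ α).trans a1)
  have h4 : (8 * T) ^ (1 + α) ≤
      ∑ i ∈ range (16 * N + 1), ((i : ℝ) + 1) ^ α * Real.log (((i : ℝ) + 1) / T) := by
    rw [show 16 * N + 1 = 8 * N + (8 * N + 1) by ring, sum_range_add]
    have a1 := card_nsmul_le_sum (range (8 * N)) _ _ fun i _ => h2 ((i : ℝ) + 1) (by positivity)
    have a2 := card_nsmul_le_sum (range (8 * N + 1)) _ _ fun i _ =>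
      h3 (((8 * N + i : ℕ) : ℝ) + 1) (by
        push_cast
        have : (0 : ℝ) ≤ i := by positivity
        linarith)
    rw [card_range, nsmul_eq_mul] at a1 a2
    have a3 : 2 * T ^ α ≤ (8 * T) ^ α := by
      rw [Real.mul_rpow (by norm_num) hT0.le]
      refine mul_le_mul_of_nonneg_right ?_ (by positivity)
      calc (2 : ℝ) = (4 : ℝ) ^ (1 / 2 : ℝ) := by
            rw [show (4 : ℝ) = 2 ^ (2 : ℝ) by norm_num, ← Real.rpow_mul (by norm_num)]
            norm_num
        _ ≤ (8 : ℝ) ^ (1 / 2 : ℝ) := Real.rpow_le_rpow (by norm_num) (by norm_num) (by norm_num)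
        _ ≤ _ := Real.rpow_le_rpow_of_exponent_le (by norm_num) hα
    rw [Real.rpow_add (by positivity), Real.rpow_one]
    have a4 : 0 ≤ (8 * T) ^ α := by positivity
    have a5 := mul_le_mul_of_nonneg_left a3 (show 0 ≤ 8 * T by positivity)
    push_cast at a1 a2 ⊢
    rw [← hTN] at a1 a2 ⊢
    linarith
  have h5 := sum_le_sum fun i (_ : i ∈ range (16 * N + 1)) => h1 ((i : ℝ) + 1) (by positivity)
  refine le_trans ?_ h5
  rw [← mul_sum, sum_add_distrib, ← mul_sum]
  exact mul_le_mul_of_nonneg_left (add_le_add le_rfl (mul_le_mul_of_nonneg_left h4 hδ))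
    (by positivity)

/-- The choice of the two exponents. -/
theorem low_facts {l σ T : ℝ} (hl : 100 ≤ l) (hσ0 : 0 < σ) (hσ : Real.log σ = l ^ 4 / 2)
    (h1 : 4 * σ * l ^ 3 ≤ T) (h2 : T ≤ 16 * σ * l ^ 3) :
    ∃ α δ : ℝ, 1 / 2 ≤ α ∧ 0 < δ ∧ δ ≤ 1 ∧ α + δ < 1 ∧ 12 * σ ^ 2 ≤ δ * (8 * T) ^ (1 + α) ∧
      68 * T * (σ ^ 2 * (17 * T)) ^ (α + δ) ≤ σ ^ 2 * (δ * (8 * T) ^ (1 + α)) ∧
      2 ^ 26 * T ^ 3 ≤ σ ^ 4 ∧ 34 * T ≤ σ ^ 2 := by
  have hl0 : 0 < l := by linarith
  have hT0 : 0 < T := lt_of_lt_of_le (by positivity) h1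
  obtain ⟨a, ha⟩ : ∃ a, a = Real.log l := ⟨_, rfl⟩
  obtain ⟨L, hL⟩ : ∃ L, L = l ^ 4 := ⟨_, rfl⟩
  obtain ⟨τ, hτ⟩ : ∃ τ, τ = Real.log T := ⟨_, rfl⟩
  rw [← hL] at hσ
  have ha0 : 0 ≤ a := ha ▸ Real.log_nonneg (by linarith only [hl])
  have hal : a ≤ l := ha ▸ log_le_self' hl0
  have hl2 : 10000 ≤ l ^ 2 := by
    have := pow_le_pow_left₀ (by norm_num) hl 2
    linarith only [this]
  have hl3 : 1000000 ≤ l ^ 3 := by
    have := pow_le_pow_left₀ (by norm_num) hl 3
    linarith only [this]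
  have hL1 : 1000000 * l ≤ L := by
    have := mul_le_mul_of_nonneg_right hl3 hl0.le
    rw [hL]; linarith only [this]
  have hL2 : 10000 * l ^ 2 ≤ L := by
    have := mul_le_mul_of_nonneg_right hl2 (sq_nonneg l)
    rw [hL]; linarith only [this]
  have hL0 : 0 < L := by rw [hL]; positivity
  have l2 := log_two_lt
  have l2' := log_two_gt
  have lp : ∀ k : ℕ, Real.log (2 ^ k) = k * Real.log 2 := fun k => Real.log_pow 2 k
  have lu : ∀ (c : ℝ) (k : ℕ), 0 < c → c ≤ 2 ^ k → Real.log c ≤ k * Real.log 2 := fun c k h h' =>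
    lp k ▸ Real.log_le_log h h'
  have l8 : Real.log 8 = 3 * Real.log 2 := by simpa using (by norm_num : (2 : ℝ) ^ 3 = 8) ▸ lp 3
  have l4 : Real.log 4 = 2 * Real.log 2 := by simpa using (by norm_num : (2 : ℝ) ^ 2 = 4) ▸ lp 2
  have l16 : Real.log 16 = 4 * Real.log 2 := by simpa using (by norm_num : (2 : ℝ) ^ 4 = 16) ▸ lp 4
  have t1 : 2 * Real.log 2 + L / 2 + 3 * a ≤ τ := by
    have := Real.log_le_log (by positivity) h1
    rw [Real.log_mul (by positivity) (by positivity), Real.log_mul (by norm_num) hσ0.ne',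
      Real.log_pow, hσ, l4, ← ha, ← hτ] at this
    exact_mod_cast this
  have t2 : τ ≤ 4 * Real.log 2 + L / 2 + 3 * a := by
    have := Real.log_le_log hT0 h2
    rw [Real.log_mul (by positivity) (by positivity), Real.log_mul (by norm_num) hσ0.ne',
      Real.log_pow, hσ, l16, ← ha, ← hτ] at this
    exact_mod_cast this
  obtain ⟨δ, hδ⟩ : ∃ δ, δ = 1 / L := ⟨_, rfl⟩
  have hδ0 : 0 < δ := by rw [hδ]; positivity
  have hδL : δ * L = 1 := by rw [hδ]; field_simp
  have hδl : δ * l ^ 2 ≤ 1 / 10000 := by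
    have := mul_le_mul_of_nonneg_left hL2 hδ0.le
    linarith only [this, hδL]
  have hδl1 : δ * l ≤ 1 / 1000000 := by
    have := mul_le_mul_of_nonneg_left hL1 hδ0.le
    linarith only [this, hδL]
  have hδa : δ * a ≤ 1 / 1000000 := (mul_le_mul_of_nonneg_left hal hδ0.le).trans hδl1
  have hδaa : δ * (a * a) ≤ 1 / 10000 := by
    have := mul_le_mul_of_nonneg_left (mul_le_mul hal hal ha0 hl0.le) hδ0.le
    linarith only [this, hδl]
  have hδ1 : δ ≤ 1 / 1000000 := by
    have := mul_le_mul_of_nonneg_left hl hδ0.le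
    linarith only [this, hδl1, hδ0]
  have hδa0 : 0 ≤ δ * a := by positivity
  have lδ : Real.log δ = -(4 * a) := by
    rw [hδ, one_div, Real.log_inv, hL, Real.log_pow, ← ha]
    norm_num
  have l8T : Real.log (8 * T) = 3 * Real.log 2 + τ := by
    rw [Real.log_mul (by norm_num) hT0.ne', l8, hτ]
  have lσ2 : Real.log (σ ^ 2) = L := by rw [Real.log_pow, hσ]; push_cast; ring
  have hb : 3 * Real.log 2 + τ ≤ L / 2 + 3 * a + 5 := by linarith only [t2, l2]
  have hb1 : δ * (3 * Real.log 2 + τ) ≤ δ * (L / 2 + 3 * a + 5) :=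
    mul_le_mul_of_nonneg_left hb hδ0.le
  have hb2 : δ * a * (3 * Real.log 2 + τ) ≤ δ * a * (L / 2 + 3 * a + 5) :=
    mul_le_mul_of_nonneg_left hb hδa0
  have hb3 : δ * a * L = a := by rw [mul_right_comm, hδL, one_mul]
  refine ⟨1 - (4 * a + 5) * δ, δ, by linarith only [hδa, hδ1], hδ0, by linarith only [hδ1],
    by linarith only [hδa0, hδ0], ?_, ?_, ?_, ?_⟩
  · rw [← Real.log_le_log_iff (by positivity) (by positivity),
      Real.log_mul (by norm_num) (by positivity), Real.log_mul hδ0.ne' (by positivity),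
      Real.log_rpow (by positivity), lσ2, lδ, l8T]
    have l10 := lu 12 4 (by norm_num) (by norm_num)
    push_cast at l10
    linarith only [l10, hb1, hb2, hb3, hδL, hδa, hδaa, hδ1, t1, l2', l2]
  · rw [← Real.log_le_log_iff (by positivity) (by positivity),
      Real.log_mul (by positivity) (by positivity), Real.log_mul (by norm_num) hT0.ne',
      Real.log_rpow (by positivity), Real.log_mul (by positivity) (by positivity),
      Real.log_mul (by norm_num) hT0.ne', Real.log_mul (by positivity) (by positivity),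
      Real.log_mul hδ0.ne' (by positivity), Real.log_rpow (by positivity), lσ2, lδ, l8T, ← hτ]
    have l68 : 2 * (Real.log 68 + Real.log 17) ≤ 21 * Real.log 2 := by
      rw [← Real.log_mul (by norm_num) (by norm_num)]
      have := lu ((68 * 17) ^ 2) 21 (by norm_num) (by norm_num)
      rw [Real.log_pow] at this
      exact_mod_cast this
    have l17 : 3 * Real.log 2 ≤ Real.log 17 := l8 ▸ Real.log_le_log (by norm_num) (by norm_num)
    have c1 := mul_le_mul_of_nonneg_left l17 hδ0.le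
    have c2 := mul_le_mul_of_nonneg_left l17 hδa0
    linarith only [l68, c1, c2, hb1, hb3, hδL, hδa, hδ1, l2]
  · rw [← Real.log_le_log_iff (by positivity) (by positivity),
      Real.log_mul (by positivity) (by positivity), lp, Real.log_pow, Real.log_pow, hσ, ← hτ]
    push_cast
    linarith only [t2, l2, hal, hL1, hl]
  · rw [← Real.log_le_log_iff (by positivity) (by positivity),
      Real.log_mul (by norm_num) hT0.ne', lσ2, ← hτ]
    have l34 := lu 34 6 (by norm_num) (by norm_num)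
    push_cast at l34
    linarith only [t2, l2, hal, hL1, hl, l34]

end Pool.Agent.MP_dd6dde_co.Thr
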