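import Mathlib.Analysis.SpecialFunctions.Pow.Real
import Mathlib.Analysis.SpecialFunctions.Sqrt
import Mathlib.Analysis.Complex.ExponentialBounds

/-! The real inequality behind the uniqueness half of the edge threshold. -/

namespace Pool.Agent.MP_dd6dde_co.Thr

open Real

theorem log_two_lt : Real.log 2 < 0.7 := lt_trans Real.log_two_lt_d9 (by norm_num)
theorem log_two_gt : 0.69 < Real.log 2 := lt_trans (by norm_num) Real.log_two_gt_d9

theorem log_le_self' {x : ℝ} (hx : 0 < x) : Real.log x ≤ x :=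
  (Real.log_le_sub_one_of_pos hx).trans (by linarith)

/-- The last case: the two gains together beat the loss. -/
theorem last_case {l s u : ℝ} (hl : 0 < l) (hs : 0 < s) (hu : 0 < u) (hsl : s ≤ l ^ 3) :
    l ^ 3 / s ≤ l ^ 4 * (u / s ^ 2 + 1 / u ^ 2) := by
  have h1 : 0 < u / s ^ 2 := by positivity
  have h2 : 0 < 1 / u ^ 2 := by positivity
  have h4 : 0 < l ^ 4 := by positivity
  by_cases h : s ≤ l * u
  · have : l ^ 3 / s ≤ l ^ 4 * (u / s ^ 2) := by
      rw [div_le_iff₀ hs]
      have e : l ^ 4 * (u / s ^ 2) * s = l ^ 3 * (l * u / s) := by field_simp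
      rw [e]
      have : 1 ≤ l * u / s := by rw [le_div_iff₀ hs]; linarith
      have h3 : 0 < l ^ 3 := by positivity
      nlinarith
    nlinarith
  · push Not at h
    have : l ^ 3 / s ≤ l ^ 4 * (1 / u ^ 2) := by
      rw [div_le_iff₀ hs]
      have e : l ^ 4 * (1 / u ^ 2) * s = l ^ 3 * (l * s / u ^ 2) := by field_simp
      rw [e]
      have : 1 ≤ l * s / u ^ 2 := by
        rw [le_div_iff₀ (by positivity)]
        have a1 : (l * u) ^ 2 ≤ s ^ 2 := by gcongr
        have a2 : s ^ 2 ≤ l ^ 3 * s := by nlinarith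
        have a3 : l ^ 2 * u ^ 2 ≤ l ^ 2 * (l * s) := by nlinarith
        have a4 : 0 < l ^ 2 := by positivity
        nlinarith
      have h3 : 0 < l ^ 3 := by positivity
      nlinarith
    nlinarith

theorem gain_pos {l σ K D α S X Y1 Y2 Rf P Q : ℝ} (hl : 100 ≤ l) (hσ0 : 0 < σ)
    (hσ : Real.log σ = l ^ 4 / 2) (hK : 1 / 2 ≤ K) (hD1 : 1 ≤ D) (hD : D ^ 2 ≤ 8 * K * σ ^ 2)
    (hα0 : 0 < α) (hα1 : α ≤ 1)
    (hS1 : σ ^ 4 * K * D ^ (α - 1) ≤ S) (hS2 : σ ^ 4 / 2 ≤ S)
    (hY1 : σ ^ 4 / 5 ≤ Y1)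
    (hY2 : S - Y2 ≤ (2 * (σ / l ^ 16)) ^ (α - 1) * (4 * σ ^ 2 * Rf))
    (hRf : Rf ≤ K * σ ^ 2) (hX0 : 0 ≤ X)
    (hX : 8 * K ≤ σ / l ^ 16 → (σ ^ 2 * (K * σ ^ 2 / (σ / l ^ 16))) ^ (α - 1) * (σ ^ 2 / 4 * Rf) ≤ X)
    (hP : S * Real.log (S / (2 * (σ ^ 3 * l ^ 3 / 5000))) +
      X * Real.log (σ ^ 3 * l ^ 3 / 5000 / σ ^ 2) ≤ α * P)
    (hQ0 : Q ≤ S * Real.log D)
    (hQ1 : Q ≤ Y1 * Real.log (4 * K) + (S - Y1) * Real.log D)
    (hQ2 : Q ≤ Y2 * Real.log (2 * (σ / l ^ 16)) + (S - Y2) * Real.log D) : Q < P := by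
  have hl0 : 0 < l := by linarith
  have hD0 : 0 < D := by linarith
  have hK0 : 0 < K := by linarith
  have hS0 : 0 < S := lt_of_lt_of_le (by positivity) hS2
  obtain ⟨s, hs0, hsK⟩ : ∃ s : ℝ, 0 < s ∧ s ^ 2 = K :=
    ⟨Real.sqrt K, Real.sqrt_pos.2 hK0, Real.sq_sqrt hK0.le⟩
  set a := Real.log l with ha
  set b := Real.log s with hb
  set d := Real.log D with hd
  set L := l ^ 4 with hL
  clear_value a b d L
  have ha0 : 0 ≤ a := ha ▸ Real.log_nonneg (by linarith only [hl])
  have hal : a ≤ l := ha ▸ log_le_self' hl0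
  have hd0 : 0 ≤ d := hd ▸ Real.log_nonneg hD1
  have hl2 : 10000 ≤ l ^ 2 := by
    have := pow_le_pow_left₀ (by norm_num) hl 2
    linarith only [this]
  have hl3 : 1000000 ≤ l ^ 3 := by
    have := pow_le_pow_left₀ (by norm_num) hl 3
    linarith only [this]
  have hL1 : 1000000 * l ≤ L := by
    have := mul_le_mul_of_nonneg_right hl3 hl0.le
    rw [hL]; linarith only [this]
  have hL2 : 10000 * l ^ 2 ≤ L := by
    have := mul_le_mul_of_nonneg_right hl2 (sq_nonneg l)
    rw [hL]; linarith only [this]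
  have hlogK : Real.log K = 2 * b := by rw [← hsK, Real.log_pow]; norm_num [hb]
  have l2 := log_two_lt
  have l2' := log_two_gt
  have hb0 : -0.35 ≤ b := by
    have : Real.log (1 / 2) ≤ Real.log K := Real.log_le_log (by norm_num) hK
    rw [one_div, Real.log_inv] at this
    linarith
  have hl3' : Real.log 3 ≤ 2 * Real.log 2 := by
    have : Real.log 3 ≤ Real.log (2 ^ 2) := Real.log_le_log (by norm_num) (by norm_num)
    rw [Real.log_pow] at this
    exact_mod_cast this
  have hDs : D ≤ 3 * s * σ := by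
    have : D ^ 2 ≤ (3 * s * σ) ^ 2 := by
      have : (3 * s * σ) ^ 2 = 9 * K * σ ^ 2 := by rw [← hsK]; ring
      rw [this]
      have : 0 ≤ K * σ ^ 2 := by positivity
      linarith only [this, hD]
    exact (pow_le_pow_iff_left₀ hD0.le (by positivity) two_ne_zero).1 this
  have hdu : d ≤ Real.log 3 + b + L / 2 := by
    have := Real.log_le_log hD0 hDs
    rwa [Real.log_mul (by positivity) hσ0.ne', Real.log_mul (by norm_num) hs0.ne', hσ, ← hd,
      ← hb] at this
  have h2500 : 11 * Real.log 2 ≤ Real.log 2500 := by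
    have : Real.log (2 ^ 11) ≤ Real.log 2500 := Real.log_le_log (by norm_num) (by norm_num)
    rw [Real.log_pow] at this
    exact_mod_cast this
  have h5000 : Real.log 5000 ≤ 13 * Real.log 2 := by
    have : Real.log 5000 ≤ Real.log (2 ^ 13) := Real.log_le_log (by norm_num) (by norm_num)
    rw [Real.log_pow] at this
    exact_mod_cast this
  have ha4 : 6 * Real.log 2 ≤ a := by
    have : Real.log (2 ^ 6) ≤ a := ha ▸ Real.log_le_log (by norm_num) (by norm_num; linarith only [hl])
    rw [Real.log_pow] at this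
    exact_mod_cast this
  have eM : Real.log (S / (2 * (σ ^ 3 * l ^ 3 / 5000)))
      = Real.log S - (3 * (L / 2) + 3 * a - Real.log 2500) := by
    rw [show 2 * (σ ^ 3 * l ^ 3 / 5000) = σ ^ 3 * l ^ 3 / 2500 by ring,
      Real.log_div hS0.ne' (by positivity), Real.log_div (by positivity) (by norm_num),
      Real.log_mul (by positivity) (by positivity), Real.log_pow, Real.log_pow, hσ]
    norm_num [ha]
  have eN : L / 2 ≤ Real.log (σ ^ 3 * l ^ 3 / 5000 / σ ^ 2) := by
    rw [show σ ^ 3 * l ^ 3 / 5000 / σ ^ 2 = σ * l ^ 3 / 5000 by field_simp,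
      Real.log_div (by positivity) (by norm_num),
      Real.log_mul (by positivity) (by positivity), Real.log_pow, hσ]
    norm_num [← ha]
    linarith
  have hL0 : 0 < L := by rw [hL]; positivity
  have hP' : S * (Real.log S - (3 * (L / 2) + 3 * a - Real.log 2500)) + X * (L / 2) ≤ α * P := by
    rw [← eM]
    have := mul_le_mul_of_nonneg_left eN hX0
    linarith
  obtain ⟨B, hB⟩ : ∃ B, B = Real.log S - (3 * (L / 2) + 3 * a - Real.log 2500) - α * d := ⟨_, rfl⟩
  -- first lower bound for `B`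
  have hBa : b - 3 * a + Real.log 2500 - Real.log 3 ≤ B := by
    have := Real.log_le_log (by positivity) hS1
    rw [Real.log_mul (by positivity) (by positivity), Real.log_mul (by positivity) hK0.ne',
      Real.log_pow, Real.log_rpow hD0, hσ, hlogK] at this
    norm_num [← hd] at this
    linarith
  have hBb : L / 2 - 3 * a + Real.log 2500 - Real.log 2 - d + (1 - α) * d ≤ B := by
    have := Real.log_le_log (by positivity) hS2
    rw [Real.log_div (by positivity) (by norm_num), Real.log_pow, hσ] at this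
    norm_num at this
    linarith
  -- reduction
  have key : ∀ g : ℝ, α * Q ≤ α * (S * d) - g → 0 < S * B + X * (L / 2) + g → Q < P := by
    intro g h1 h2
    have : α * Q < α * P := by
      have e : S * B = S * (Real.log S - (3 * (L / 2) + 3 * a - Real.log 2500)) - α * (S * d) := by
        rw [hB]; ring
      linarith
    exact lt_of_mul_lt_mul_left this hα0.le
  have hXL : 0 ≤ X * (L / 2) := by positivity
  have easy : 0 < B → Q < P := fun h =>
    key 0 (by simpa using mul_le_mul_of_nonneg_left hQ0 hα0.le) (by have := mul_pos hS0 h; linarith)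
  by_cases hA : 3 * a ≤ b
  · exact easy (by linarith)
  push Not at hA
  by_cases hB0 : d ≤ L / 2 - 4 * a
  · have : 0 ≤ (1 - α) * d := mul_nonneg (by linarith) hd0
    exact easy (by linarith)
  push Not at hB0
  by_cases hB1 : 8 * a ≤ (1 - α) * d
  · exact easy (by linarith)
  push Not at hB1
  set ε := 1 - α with hε
  clear_value ε
  have hε0 : 0 ≤ ε := by linarith
  have hdL : L / 3 ≤ d := by linarith
  have hεL : ε * L ≤ 24 * a := by
    have := mul_le_mul_of_nonneg_left hdL hε0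
    linarith only [this, hB1]
  have hεa : 22 * (ε * a) ≤ Real.log 2 := by
    have h1 : ε * a * L ≤ 24 * l ^ 2 := by
      have q1 := mul_le_mul_of_nonneg_right hεL ha0
      have q2 := mul_le_mul hal hal ha0 hl0.le
      linarith only [q1, q2]
    have h2 : ε * a * L ≤ 0.0024 * L := by linarith
    have h3 : ε * a ≤ 0.0024 := le_of_mul_le_mul_right h2 hL0
    linarith
  have hαh : 1 / 2 ≤ α := by
    have h2 : ε * L ≤ 1 / 2 * L := by linarith
    have h3 : ε ≤ 1 / 2 := le_of_mul_le_mul_right h2 hL0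
    linarith
  have er : Real.log (2 * (σ / l ^ 16)) = Real.log 2 + (L / 2 - 16 * a) := by
    rw [Real.log_mul (by norm_num) (by positivity), Real.log_div hσ0.ne' (by positivity),
      Real.log_pow, hσ]
    norm_num [ha]
  by_cases hB2 : S / 2 ≤ Y2
  · rw [er] at hQ2
    have h1 : 12 * a - Real.log 2 ≤ d - (Real.log 2 + (L / 2 - 16 * a)) := by linarith
    have h2 : 0 ≤ 12 * a - Real.log 2 := by linarith
    have h3 : S / 2 * (12 * a - Real.log 2) ≤ Y2 * (d - (Real.log 2 + (L / 2 - 16 * a))) :=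
      mul_le_mul hB2 h1 h2 (by linarith)
    have h4 : 0 ≤ S / 2 * (12 * a - Real.log 2) := by positivity
    refine key (1 / 2 * (S / 2 * (12 * a - Real.log 2))) ?_ ?_
    · have h5 : Q ≤ S * d - S / 2 * (12 * a - Real.log 2) := by linarith
      have h6 := mul_le_mul_of_nonneg_left h5 hα0.le
      have h7 := mul_le_mul_of_nonneg_right hαh h4
      linarith
    · have h5 : 0 < B + (12 * a - Real.log 2) / 4 := by linarith
      have h6 := mul_pos hS0 h5
      linarith
  push Not at hB2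
  -- the main case
  obtain ⟨u, hu⟩ : ∃ u, u = Real.exp (ε * (L / 2)) := ⟨_, rfl⟩
  have hu0 : 0 < u := hu ▸ Real.exp_pos _
  have hαε : α - 1 = -ε := by rw [hε]; ring
  have hr : (2 * (σ / l ^ 16)) ^ (α - 1) ≤ 2 / u := by
    have e2 : 2 / u = Real.exp (Real.log 2 - ε * (L / 2)) := by
      rw [Real.exp_sub, Real.exp_log (by norm_num), hu]
    rw [Real.rpow_def_of_pos (by positivity), er, e2, hαε]
    apply Real.exp_le_exp.2
    have q1 : 0 ≤ ε * Real.log 2 := by positivity
    have q2 : 0 ≤ ε * a := by positivity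
    linarith only [q1, q2, hεa]
  have hRf0 : 0 < Rf := by
    by_contra hneg
    push Not at hneg
    have h1 : 4 * σ ^ 2 * Rf ≤ 0 := mul_nonpos_of_nonneg_of_nonpos (by positivity) hneg
    have h2 : (2 * (σ / l ^ 16)) ^ (α - 1) * (4 * σ ^ 2 * Rf) ≤ 0 :=
      mul_nonpos_of_nonneg_of_nonpos (by positivity) h1
    linarith
  have hSu : S * u ≤ 16 * (σ ^ 2 * Rf) := by
    have h1 : (2 * (σ / l ^ 16)) ^ (α - 1) * (4 * σ ^ 2 * Rf) ≤ 2 / u * (4 * σ ^ 2 * Rf) :=
      mul_le_mul_of_nonneg_right hr (by positivity)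
    have h2 : S ≤ 2 * (2 / u * (4 * σ ^ 2 * Rf)) := by linarith
    have h3 : 2 * (2 / u * (4 * σ ^ 2 * Rf)) * u = 16 * (σ ^ 2 * Rf) := by field_simp; ring
    rw [← h3]
    exact mul_le_mul_of_nonneg_right h2 hu0.le
  have h8K : 8 * K ≤ σ / l ^ 16 := by
    rw [← Real.log_le_log_iff (by positivity) (by positivity),
      Real.log_mul (by norm_num) hK0.ne', Real.log_div hσ0.ne' (by positivity), Real.log_pow,
      hσ, hlogK, show (8 : ℝ) = 2 ^ 3 by norm_num, Real.log_pow]
    norm_num [← ha]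
    linarith
  have hX1 := hX h8K
  have hr2 : 1 / (2 * u ^ 3) ≤ (σ ^ 2 * (K * σ ^ 2 / (σ / l ^ 16))) ^ (α - 1) := by
    have e1 : σ ^ 2 * (K * σ ^ 2 / (σ / l ^ 16)) = σ ^ 3 * K * l ^ 16 := by field_simp
    have e2 : 1 / (2 * u ^ 3) = Real.exp (-(Real.log 2 + (3 : ℕ) * (ε * (L / 2)))) := by
      rw [Real.exp_neg, Real.exp_add, Real.exp_log (by norm_num), Real.exp_nat_mul, hu, one_div]
    rw [e1, e2, Real.rpow_def_of_pos (by positivity), Real.log_mul (by positivity) (by positivity),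
      Real.log_mul (by positivity) hK0.ne', Real.log_pow, Real.log_pow, hσ, hlogK, hαε, ← ha]
    apply Real.exp_le_exp.2
    have q1 : ε * b ≤ ε * (3 * a) := mul_le_mul_of_nonneg_left hA.le hε0
    push_cast
    linarith only [q1, hεa]
  have hX2 : S / (128 * u ^ 2) ≤ X := by
    have h1 : 1 / (2 * u ^ 3) * (σ ^ 2 / 4 * Rf) ≤ X :=
      (mul_le_mul_of_nonneg_right hr2 (by positivity)).trans hX1
    refine le_trans ?_ h1
    rw [div_le_iff₀ (by positivity)]
    have e : 1 / (2 * u ^ 3) * (σ ^ 2 / 4 * Rf) * (128 * u ^ 2) = 16 * (σ ^ 2 * Rf) / u := by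
      field_simp; ring
    rw [e, le_div_iff₀ hu0]
    exact hSu
  have hY3 : S * u / (80 * K) ≤ Y1 := by
    refine le_trans ?_ hY1
    rw [div_le_iff₀ (by positivity)]
    have : σ ^ 2 * Rf ≤ σ ^ 2 * (K * σ ^ 2) := mul_le_mul_of_nonneg_left hRf (by positivity)
    linarith only [this, hSu]
  have e4 : Real.log (4 * K) = 2 * Real.log 2 + 2 * b := by
    rw [Real.log_mul (by norm_num) hK0.ne', hlogK, show (4 : ℝ) = 2 ^ 2 by norm_num, Real.log_pow]
    norm_num
  rw [e4] at hQ1
  have h1 : L / 3 ≤ d - (2 * Real.log 2 + 2 * b) := by linarith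
  have h3 : S * u / (80 * K) * (L / 3) ≤ Y1 * (d - (2 * Real.log 2 + 2 * b)) :=
    mul_le_mul hY3 h1 (by positivity) (le_trans (by positivity) hY1)
  have h4 : 0 ≤ S * u / (80 * K) * (L / 3) := by positivity
  refine key (1 / 2 * (S * u / (80 * K) * (L / 3))) ?_ ?_
  · have h5 : Q ≤ S * d - S * u / (80 * K) * (L / 3) := by linarith
    have h6 := mul_le_mul_of_nonneg_left h5 hα0.le
    have h7 := mul_le_mul_of_nonneg_right hαh h4
    linarith
  · have hsl : s ≤ l ^ 3 := by
      rw [← Real.log_le_log_iff hs0 (by positivity), Real.log_pow]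
      norm_num [← ha, ← hb]
      linarith
    have h5 := last_case hl0 hs0 hu0 hsl
    rw [hsK, ← hL] at h5
    set τ := l ^ 3 / s with hτ
    have hτ0 : 0 < τ := by positivity
    clear_value τ
    have h6 : Real.log (3 * τ / 2500) ≤ 3 * τ / 2500 - 1 :=
      Real.log_le_sub_one_of_pos (by positivity)
    have h7 : Real.log (3 * τ / 2500) = Real.log 3 + (3 * a - b) - Real.log 2500 := by
      rw [Real.log_div (by positivity) (by norm_num), Real.log_mul (by norm_num) hτ0.ne', hτ,
        Real.log_div (by positivity) hs0.ne', Real.log_pow]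
      norm_num [ha, hb]
    have h8 : 1 - 3 * τ / 2500 ≤ B := by linarith
    have h9 : S / (128 * u ^ 2) * (L / 2) ≤ X * (L / 2) :=
      mul_le_mul_of_nonneg_right hX2 (by positivity)
    have e1 : S / (128 * u ^ 2) * (L / 2) = S * (L * (1 / u ^ 2) / 256) := by field_simp; ring
    have e2 : 1 / 2 * (S * u / (80 * K) * (L / 3)) = S * (L * (u / K) / 480) := by
      field_simp; ring
    have p1 : 0 ≤ L * (1 / u ^ 2) := by positivity
    have h10 : 0 < B + L * (1 / u ^ 2) / 256 + L * (u / K) / 480 := by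
      have : L * (u / K + 1 / u ^ 2) = L * (u / K) + L * (1 / u ^ 2) := by ring
      linarith
    have h11 := mul_pos hS0 h10
    rw [e2]
    rw [e1] at h9
    linarith

end Pool.Agent.MP_dd6dde_co.Thr
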