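import Pool.Agent.MP_dd6dde_co.Thr.Comb
import Pool.Agent.MP_dd6dde_co.Thr.RealUp

/-! Sparse graphs: the derivative of `h_G` is positive at every zero. -/

namespace Pool.Agent.MP_dd6dde_co.Thr

open Finset
open scoped Classical

variable {V : Type} [Fintype V] {G : SimpleGraph V}

theorem sum_PP_le (f : V × V → ℝ) (hf : ∀ e, 0 ≤ f e) : ∑ e ∈ PP V, f e ≤ ∑ x, ∑ y, f (x, y) := by
  rw [← Fintype.sum_prod_type f]
  exact sum_le_sum_of_subset_of_nonneg (subset_univ _) fun e _ _ => hf e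

theorem sum_PP_de : ∑ e ∈ PP V, de G e = ∑ x, ∑ y, (G.dist x y : ℝ) := by
  rw [← Fintype.sum_prod_type' fun x y => (G.dist x y : ℝ)]
  refine sum_subset (subset_univ _) fun e _ he => ?_
  rw [mem_PP, not_not] at he
  simp [de, he]

theorem split_log (hc : G.Connected) {D ρ α : ℝ} (hD : ∀ e, de G e ≤ D) :
    ∑ e ∈ PP V, de G e ^ α * Real.log (de G e) ≤
      (∑ e ∈ (PP V).filter fun e => de G e ≤ ρ, de G e ^ α) * Real.log ρ +
      (∑ e ∈ PP V, de G e ^ α - ∑ e ∈ (PP V).filter fun e => de G e ≤ ρ, de G e ^ α) *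
        Real.log D := by
  rw [← sum_filter_add_sum_filter_not (PP V) (fun e => de G e ≤ ρ),
    ← sum_filter_add_sum_filter_not (PP V) (fun e => de G e ≤ ρ) fun e => de G e ^ α,
    add_sub_cancel_left, sum_mul, sum_mul]
  refine add_le_add (sum_le_sum fun e he => ?_) (sum_le_sum fun e he => ?_)
  · rw [mem_filter] at he
    have := one_le_de hc he.1
    exact mul_le_mul_of_nonneg_left (Real.log_le_log (by linarith) he.2) (by positivity)
  · rw [mem_filter] at he
    have := one_le_de hc he.1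
    exact mul_le_mul_of_nonneg_left (Real.log_le_log (by linarith) (hD e)) (by positivity)

theorem markov (r : V → ℝ) (hr : ∀ x, 0 ≤ r x) (ρ : ℝ) :
    ((univ.filter fun x => ρ < r x).card : ℝ) * ρ ≤ ∑ x, r x := by
  have h1 : ∑ x ∈ univ.filter fun x => ρ < r x, ρ ≤ ∑ x ∈ univ.filter fun x => ρ < r x, r x :=
    sum_le_sum fun x hx => (mem_filter.1 hx).2.le
  rw [sum_const, nsmul_eq_mul] at h1
  exact h1.trans (sum_le_sum_of_subset_of_nonneg (subset_univ _) fun x _ _ => hr x)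

theorem far_mass (hc : G.Connected) (z : V) {ρ α : ℝ} (hρ : 0 < ρ) (hα : α ≤ 1) :
    ∑ e ∈ PP V, de G e ^ α - ∑ e ∈ (PP V).filter fun e => de G e ≤ 2 * ρ, de G e ^ α ≤
      (2 * ρ) ^ (α - 1) * (4 * (Fintype.card V : ℝ) *
        ∑ x ∈ univ.filter fun x => ρ < (G.dist z x : ℝ), (G.dist z x : ℝ)) := by
  rw [← sum_filter_add_sum_filter_not (PP V) (fun e => de G e ≤ 2 * ρ) fun e => de G e ^ α,
    add_sub_cancel_left]
  let g : V → ℝ := fun x => if ρ < (G.dist z x : ℝ) then (G.dist z x : ℝ) else 0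
  have g0 : ∀ x, 0 ≤ g x := fun x => by simp only [g]; split_ifs <;> positivity
  have h1 : ∑ e ∈ (PP V).filter fun e => ¬ de G e ≤ 2 * ρ, de G e ^ α ≤
      ∑ e ∈ (PP V).filter fun e => ¬ de G e ≤ 2 * ρ,
        (2 * ρ) ^ (α - 1) * (2 * g e.1 + 2 * g e.2) := by
    refine sum_le_sum fun e he => ?_
    have h2 := not_le.1 (mem_filter.1 he).2
    refine (rpow_le_mul (by positivity) h2.le hα).trans
      (mul_le_mul_of_nonneg_left ?_ (by positivity))
    have h3 : de G e ≤ G.dist z e.1 + G.dist z e.2 := by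
      unfold de
      rw [G.dist_comm (u := z) (v := e.1)]
      exact_mod_cast hc.dist_triangle
    simp only [g]
    split_ifs <;> linarith
  refine h1.trans ?_
  rw [← mul_sum]
  refine mul_le_mul_of_nonneg_left ?_ (by positivity)
  have h4 : ∑ e ∈ (PP V).filter fun e => ¬ de G e ≤ 2 * ρ, (2 * g e.1 + 2 * g e.2) ≤
      ∑ e : V × V, (2 * g e.1 + 2 * g e.2) :=
    sum_le_sum_of_subset_of_nonneg (subset_univ _) fun e _ _ => by
      have := g0 e.1; have := g0 e.2; positivity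
  refine h4.trans (le_of_eq ?_)
  rw [Fintype.sum_prod_type, sum_filter]
  simp only [sum_add_distrib, sum_const, card_univ, nsmul_eq_mul, ← mul_sum, g]
  ring

theorem near_mass (hc : G.Connected) (z : V) {ρ α : ℝ} (hα : 0 ≤ α) :
    ((univ.filter fun x => (G.dist z x : ℝ) ≤ ρ).card : ℝ) *
      ((univ.filter fun x => (G.dist z x : ℝ) ≤ ρ).card - 1) ≤
      ∑ e ∈ (PP V).filter fun e => de G e ≤ 2 * ρ, de G e ^ α := by
  set B := univ.filter fun x => (G.dist z x : ℝ) ≤ ρ with hB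
  have h1 : B.offDiag ⊆ (PP V).filter fun e => de G e ≤ 2 * ρ := fun e he => by
    rw [mem_offDiag, hB, mem_filter, mem_filter] at he
    refine mem_filter.2 ⟨mem_PP.2 he.2.2, ?_⟩
    have h3 : de G e ≤ G.dist z e.1 + G.dist z e.2 := by
      unfold de
      rw [G.dist_comm (u := z) (v := e.1)]
      exact_mod_cast hc.dist_triangle
    linarith [he.1.2, he.2.1.2]
  have h2 : (B.offDiag.card : ℝ) = B.card * (B.card - 1) := by
    rw [offDiag_card, Nat.cast_sub (Nat.le_mul_self _)]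
    push_cast
    ring
  rw [← h2]
  calc (B.offDiag.card : ℝ) ≤ (((PP V).filter fun e => de G e ≤ 2 * ρ).card : ℝ) := by
        exact_mod_cast card_le_card h1
    _ = ∑ e ∈ (PP V).filter fun e => de G e ≤ 2 * ρ, (1 : ℝ) := by simp
    _ ≤ _ := sum_le_sum fun e he => Real.one_le_rpow (one_le_de hc (mem_filter.1 he).1) hα

theorem tree_mass (hc : G.Connected) {z : V} {par : V → V}
    (hp : ∀ v, v ≠ z → G.Adj (par v) v ∧ G.dist z (par v) + 1 = G.dist z v) (B F : Finset V)
    {A α : ℝ} (hα0 : 0 ≤ α) (hα : α ≤ 1) (hA : (B.card : ℝ) * F.card ≤ A)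
    (hBF : ∀ w ∈ B, ∀ x ∈ F, 4 * G.dist z w ≤ G.dist z x) :
    A ^ (α - 1) * (B.card / 2 * ∑ x ∈ F, (G.dist z x : ℝ)) ≤
      ∑ e ∈ (univ.erase z).image fun v => (par v, v), pe G e ^ α := by
  rw [sum_image fun a _ b _ e => (Prod.ext_iff.1 e).2]
  let a : V → ℕ := fun v => (B.filter fun w => G.dist w (par v) < G.dist w v).card
  let b : V → ℕ := fun v => (F.filter fun x => G.dist x v < G.dist x (par v)).card
  have hA0 : 0 ≤ A := le_trans (by positivity) hA
  have h1 : ∀ v, A ^ (α - 1) * ((a v * b v : ℕ) : ℝ) ≤ pe G (par v, v) ^ α := fun v => by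
    refine (mul_rpow_le (by positivity) (le_trans ?_ hA) hα).trans
      (Real.rpow_le_rpow (by positivity) ?_ hα0)
    · exact_mod_cast Nat.mul_le_mul (card_filter_le _ _) (card_filter_le _ _)
    · unfold pe nu
      exact_mod_cast Nat.mul_le_mul (card_le_card (filter_subset_filter _ (subset_univ _)))
        (card_le_card (filter_subset_filter _ (subset_univ _)))
  refine le_trans ?_ (sum_le_sum fun v _ => h1 v)
  rw [← mul_sum]
  refine mul_le_mul_of_nonneg_left ?_ (by positivity)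
  have h2 : ∑ v ∈ univ.erase z, a v * b v = ∑ w ∈ B, ∑ x ∈ F, ((univ.erase z).filter fun v =>
      G.dist w (par v) < G.dist w v ∧ G.dist x v < G.dist x (par v)).card := by
    simp only [a, b, card_filter, sum_mul_sum]
    rw [sum_comm]
    refine sum_congr rfl fun w _ => ?_
    rw [sum_comm]
    refine sum_congr rfl fun x _ => sum_congr rfl fun v _ => ?_
    by_cases h : G.dist w (par v) < G.dist w v <;> by_cases h' : G.dist x v < G.dist x (par v) <;>
      simp [h, h']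
  have h3 : ∑ _w ∈ B, ∑ x ∈ F, G.dist z x ≤ 2 * ∑ v ∈ univ.erase z, a v * b v := by
    rw [h2, mul_sum]
    refine sum_le_sum fun w hw => ?_
    rw [mul_sum]
    refine sum_le_sum fun x hx => ?_
    have h4 := tree_count hc hp w x
    have h5 := hBF w hw x hx
    have h6 := hc.dist_triangle (u := z) (v := w) (w := x)
    omega
  rw [sum_const, smul_eq_mul] at h3
  have h4 : ((B.card * ∑ x ∈ F, G.dist z x : ℕ) : ℝ) ≤
      ((2 * ∑ v ∈ univ.erase z, a v * b v : ℕ) : ℝ) := by exact_mod_cast h3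
  push_cast at h4 ⊢
  linarith

theorem deriv_pos (hc : G.Connected) {l σ α : ℝ} (hl : 100 ≤ l) (hσ0 : 0 < σ)
    (hσ : Real.log σ = l ^ 4 / 2) (hn : σ ^ 2 = Fintype.card V)
    (hm : ((EE G).card : ℝ) ≤ σ ^ 3 * l ^ 3 / 5000) (hα0 : 0 < α) (hα1 : α ≤ 1)
    (h0 : hG G α = 0) :
    ∑ e ∈ PP V, de G e ^ α * Real.log (de G e) < ∑ e ∈ EE G, pe G e ^ α * Real.log (pe G e) := by
  have hl0 : 0 < l := by linarith
  have hσ10 : 10 ≤ σ := by
    have h1 := log_le_self' hσ0
    have h2 := pow_le_pow_left₀ (by norm_num) hl 4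
    linarith
  have hn100 : 100 ≤ σ ^ 2 := by nlinarith
  have : Nonempty V := hc.nonempty
  obtain ⟨z, -, hz⟩ := exists_min_image univ (fun z => ∑ y, G.dist z y) univ_nonempty
  obtain ⟨x0, -, hx0⟩ := exists_max_image univ (fun y => G.dist z y) univ_nonempty
  obtain ⟨par, hp⟩ := exists_par hc z
  obtain ⟨R, hR⟩ : ∃ R : ℝ, R = ∑ y, (G.dist z y : ℝ) := ⟨_, rfl⟩
  have hS : ∑ e ∈ EE G, pe G e ^ α = ∑ e ∈ PP V, de G e ^ α := by
    have := two_h' (G := G) α
    rw [h0] at this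
    linarith
  have hR1 : σ ^ 2 - 1 ≤ R := by
    have h1 : ∑ _y ∈ univ.erase z, (1 : ℝ) ≤ ∑ y ∈ univ.erase z, (G.dist z y : ℝ) :=
      sum_le_sum fun y hy => by exact_mod_cast hc.pos_dist_of_ne (mem_erase.1 hy).1.symm
    have h2 : ∑ y ∈ univ.erase z, (G.dist z y : ℝ) ≤ R :=
      hR ▸ sum_le_sum_of_subset_of_nonneg (subset_univ _) fun _ _ _ => by positivity
    rw [sum_const, nsmul_eq_mul, mul_one, card_erase_of_mem (mem_univ z), card_univ,
      Nat.cast_sub Fintype.card_pos, ← hn, Nat.cast_one] at h1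
    linarith
  obtain ⟨K, hK⟩ : ∃ K : ℝ, K = R / σ ^ 2 := ⟨_, rfl⟩
  have hKR : K * σ ^ 2 = R := by rw [hK]; field_simp
  have hK1 : 1 / 2 ≤ K := by rw [hK, le_div_iff₀ (by positivity)]; linarith
  have hD : ∀ e, de G e ≤ 2 * (G.dist z x0 : ℝ) := fun e => by
    have h1 := hc.dist_triangle (u := e.1) (v := z) (w := e.2)
    rw [G.dist_comm (u := e.1) (v := z)] at h1
    have h2 := hx0 e.1 (mem_univ _)
    have h3 := hx0 e.2 (mem_univ _)
    unfold de
    exact_mod_cast (by omega : G.dist e.1 e.2 ≤ 2 * G.dist z x0)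
  have hcard : σ ^ 4 / 2 ≤ ((PP V).card : ℝ) := by
    have : PP V = (univ : Finset V).offDiag := by ext e; simp [mem_PP]
    rw [this, offDiag_card, Nat.cast_sub (Nat.le_mul_self _), card_univ]
    push_cast
    rw [← hn]
    nlinarith
  have hD1 : 1 ≤ 2 * (G.dist z x0 : ℝ) := by
    obtain ⟨e, he⟩ : (PP V).Nonempty := card_pos.1 (by
      have : (0 : ℝ) < (PP V).card := lt_of_lt_of_le (by positivity) hcard
      exact_mod_cast this)
    exact (one_le_de hc he).trans (hD e)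
  set B := univ.filter fun x => (G.dist z x : ℝ) ≤ 2 * K with hB
  have hBc : σ ^ 2 / 2 ≤ (B.card : ℝ) := by
    have h1 := markov (fun x => (G.dist z x : ℝ)) (fun x => by positivity) (2 * K)
    have h2 := card_filter_add_card_filter_not (s := univ) fun x => (G.dist z x : ℝ) ≤ 2 * K
    simp only [not_le] at h2
    have h3 : (B.card : ℝ) + ((univ.filter fun x => 2 * K < (G.dist z x : ℝ)).card : ℝ) = σ ^ 2 := by
      rw [hn, ← card_univ, ← h2]
      push_cast
      rfl
    rw [← hR, ← hKR] at h1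
    have h4 : ((univ.filter fun x => 2 * K < (G.dist z x : ℝ)).card : ℝ) * 2 ≤ σ ^ 2 :=
      le_of_mul_le_mul_left (a := K) (by linarith) (by linarith)
    linarith
  have hBn : (B.card : ℝ) ≤ σ ^ 2 := by rw [hn]; exact_mod_cast card_le_univ _
  set F := univ.filter fun x => σ / l ^ 16 < (G.dist z x : ℝ) with hF
  have hT : ((univ.erase z).image fun v => (par v, v)) ⊆ EE G := fun e he => by
    obtain ⟨v, hv, rfl⟩ := mem_image.1 he
    exact mem_EE.2 (hp v (mem_erase.1 hv).1).1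
  have hS2 : σ ^ 4 / 2 ≤ ∑ e ∈ PP V, de G e ^ α := by
    refine hcard.trans ?_
    calc ((PP V).card : ℝ) = ∑ _e ∈ PP V, (1 : ℝ) := by simp
      _ ≤ _ := sum_le_sum fun e he => Real.one_le_rpow (one_le_de hc he) hα0.le
  refine gain_pos (K := K) (D := 2 * (G.dist z x0 : ℝ)) (S := ∑ e ∈ PP V, de G e ^ α)
    (X := ∑ e ∈ (univ.erase z).image fun v => (par v, v), pe G e ^ α)
    (Y1 := ∑ e ∈ (PP V).filter fun e => de G e ≤ 4 * K, de G e ^ α)
    (Y2 := ∑ e ∈ (PP V).filter fun e => de G e ≤ 2 * (σ / l ^ 16), de G e ^ α)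
    (Rf := ∑ x ∈ F, (G.dist z x : ℝ)) hl hσ0 hσ hK1 hD1 ?_ hα0 hα1 ?_ hS2 ?_ ?_ ?_ ?_ ?_ ?_ ?_
    (split_log hc hD) (split_log hc hD)
  · have h1 : ((G.dist z x0 ^ 2 : ℕ) : ℝ) ≤ ((2 * ∑ y, G.dist z y : ℕ) : ℝ) := by
      exact_mod_cast sq_dist_le hc z x0
    push_cast at h1
    rw [← hR] at h1
    linarith
  · have h1 : (2 * (G.dist z x0 : ℝ)) ^ (α - 1) * ∑ e ∈ PP V, de G e ≤ ∑ e ∈ PP V, de G e ^ α := by
      rw [mul_sum]
      exact sum_le_sum fun e he => mul_rpow_le (by linarith [one_le_de hc he]) (hD e) hα1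
    refine le_trans ?_ h1
    rw [mul_comm]
    refine mul_le_mul_of_nonneg_left ?_ (by positivity)
    rw [sum_PP_de]
    have h2 : ∑ _x : V, R ≤ ∑ x, ∑ y, (G.dist x y : ℝ) := sum_le_sum fun x _ => by
      rw [hR]
      exact_mod_cast hz x (mem_univ x)
    rw [sum_const, nsmul_eq_mul, card_univ, ← hn, ← hKR] at h2
    linarith
  · have h1 := near_mass hc z (ρ := 2 * K) hα0.le
    rw [show 2 * (2 * K) = 4 * K by ring, ← hB] at h1
    refine le_trans ?_ h1
    have h2 : σ ^ 2 / 2 * (σ ^ 2 / 2 - 1) ≤ (B.card : ℝ) * (B.card - 1) :=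
      mul_le_mul hBc (by linarith) (by linarith) (by positivity)
    nlinarith
  · have h1 := far_mass hc z (ρ := σ / l ^ 16) (by positivity) hα1
    rwa [← hn] at h1
  · rw [hKR, hR]
    exact sum_le_sum_of_subset_of_nonneg (subset_univ _) fun _ _ _ => by positivity
  · exact sum_nonneg fun e he => by have := one_le_pe (hT he); positivity
  · intro h8
    refine le_trans ?_ (tree_mass hc hp B F (A := σ ^ 2 * (K * σ ^ 2 / (σ / l ^ 16))) hα0.le hα1
      ?_ ?_)
    · refine mul_le_mul_of_nonneg_left (mul_le_mul_of_nonneg_right (by linarith) ?_)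
        (by positivity)
      exact sum_nonneg fun _ _ => by positivity
    · refine mul_le_mul hBn ?_ (by positivity) (by positivity)
      rw [le_div_iff₀ (by positivity), hKR, hR]
      exact markov (fun x => (G.dist z x : ℝ)) (fun x => by positivity) _
    · intro w hw x hx
      have h1 := (mem_filter.1 hw).2
      have h2 := (mem_filter.1 hx).2
      have h3 : 4 * (G.dist z w : ℝ) ≤ G.dist z x := by linarith
      exact_mod_cast h3
  · have h1 := gibbs hT (fun e => pe G e ^ α)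
      (fun e he => by have := one_le_pe he; positivity) hS (lt_of_lt_of_le (by positivity) hS2)
      (M := σ ^ 3 * l ^ 3 / 5000) (N := σ ^ 2) (by positivity) (by positivity) hm (by
        rw [hn]
        exact_mod_cast card_image_le.trans (card_le_univ _))
    refine h1.trans (le_of_eq ?_)
    rw [mul_sum]
    refine sum_congr rfl fun e he => ?_
    rw [Real.log_rpow (by linarith [one_le_pe he])]
    ring
  · rw [sum_mul]
    refine sum_le_sum fun e he => ?_
    have := one_le_de hc he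
    exact mul_le_mul_of_nonneg_left (Real.log_le_log (by linarith) (hD e)) (by positivity)

theorem exists_zero (hc : G.Connected) {a b : ℝ} (hab : a ≤ b) (h : hG G a * hG G b < 0) :
    ∃ c, a < c ∧ c < b ∧ hG G c = 0 := by
  rcases mul_neg_iff.1 h with ⟨h1, h2⟩ | ⟨h1, h2⟩
  · obtain ⟨c, hc1, hc2⟩ := intermediate_value_Ioo' hab (cont_h hc).continuousOn
      (show (0 : ℝ) ∈ Set.Ioo (hG G b) (hG G a) from ⟨h2, h1⟩)
    exact ⟨c, hc1.1, hc1.2, hc2⟩
  · obtain ⟨c, hc1, hc2⟩ := intermediate_value_Ioo hab (cont_h hc).continuousOn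
      (show (0 : ℝ) ∈ Set.Ioo (hG G a) (hG G b) from ⟨h1, h2⟩)
    exact ⟨c, hc1.1, hc1.2, hc2⟩

theorem unique_zero (hc : G.Connected) (ht : G ≠ ⊤) {l σ : ℝ} (hl : 100 ≤ l) (hσ0 : 0 < σ)
    (hσ : Real.log σ = l ^ 4 / 2) (hn : σ ^ 2 = Fintype.card V)
    (hm : ((EE G).card : ℝ) ≤ σ ^ 3 * l ^ 3 / 5000) : ∃! α : ℝ, hG G α = 0 := by
  obtain ⟨c, -, -, h⟩ := exists_zero hc (a := 0) (b := 2) (by norm_num)
    (mul_neg_of_neg_of_pos (h_neg hc ht le_rfl) (h_pos hc ht (by norm_num)))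
  have key : ∀ a b, hG G a = 0 → hG G b = 0 → ¬ a < b := fun a b ha hb =>
    zero_unique (deriv_h hc) (fun t h0 => by
      have := deriv_pos hc hl hσ0 hσ hn hm (zero_mem hc ht h0).1 (zero_mem hc ht h0).2 h0
      linarith) ha hb
  exact ⟨c, h, fun y hy => le_antisymm (not_lt.1 (key c y h hy)) (not_lt.1 (key y c hy h))⟩

end Pool.Agent.MP_dd6dde_co.Thr
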