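import Pool.Agent.MP_dd6dde_co.Thr.Comb

/-! The cone over a graph with a path attached at the apex. -/

namespace Pool.Agent.MP_dd6dde_co.Thr

open Finset Sum
open scoped Classical

theorem dist_eq_of {V : Type} {G : SimpleGraph V} (δ : V → V → ℕ) (h0 : ∀ x y, δ x y = 0 ↔ x = y)
    (h1 : ∀ x u v, G.Adj u v → δ x v ≤ δ x u + 1)
    (h2 : ∀ x y k, δ x y = k + 1 → ∃ u, G.Adj u y ∧ δ x u = k) (x y : V) :
    G.Reachable x y ∧ G.dist x y = δ x y := by
  have up : ∀ k y, δ x y = k → ∃ p : G.Walk x y, p.length = k := by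
    intro k
    induction k with
    | zero =>
      intro y h
      obtain rfl := (h0 x y).1 h
      exact ⟨SimpleGraph.Walk.nil, rfl⟩
    | succ k ih =>
      intro y h
      obtain ⟨u, hu, hk⟩ := h2 x y k h
      obtain ⟨p, hp⟩ := ih u hk
      exact ⟨p.concat hu, by simp [hp]⟩
  have low : ∀ u v (p : G.Walk u v), δ x v ≤ δ x u + p.length := by
    intro u v p
    induction p with
    | nil => simp
    | cons h p ih =>
      have := h1 x _ _ h
      rw [SimpleGraph.Walk.length_cons]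
      omega
  obtain ⟨p, hp⟩ := up _ y rfl
  refine ⟨⟨p⟩, le_antisymm (hp ▸ SimpleGraph.dist_le p) ?_⟩
  obtain ⟨q, hq⟩ := SimpleGraph.Reachable.exists_walk_length_eq_dist ⟨p⟩
  have := low _ _ q
  rw [(h0 x x).2 rfl, hq] at this
  omega

variable {β : Type} (H : SimpleGraph β) (D : ℕ)

/-- The distance function of the cone with a tail. -/
noncomputable def dl : β ⊕ Fin (D + 1) → β ⊕ Fin (D + 1) → ℕ
  | inl a, inl b => if a = b then 0 else if H.Adj a b then 1 else 2
  | inl _, inr i => i + 1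
  | inr i, inl _ => i + 1
  | inr i, inr j => (i - j) + (j - i)

theorem dl_comm (x y : β ⊕ Fin (D + 1)) : dl H D x y = dl H D y x := by
  rcases x with a | i <;> rcases y with b | j <;> simp only [dl]
  · simp only [eq_comm (a := a), H.adj_comm a]
  · omega

theorem dl_zero (x y : β ⊕ Fin (D + 1)) : dl H D x y = 0 ↔ x = y := by
  rcases x with a | i <;> rcases y with b | j <;> simp only [dl]
  · split_ifs <;> simp [*]
  · simp
  · simp
  · simp only [inr.injEq, Fin.ext_iff]; omega

/-- The cone over `H` with a path of length `D` attached at the apex. -/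
noncomputable def cone : SimpleGraph (β ⊕ Fin (D + 1)) where
  Adj x y := dl H D x y = 1
  symm := ⟨fun x y h => by rwa [dl_comm]⟩
  loopless := ⟨fun x h => by rw [(dl_zero H D x x).2 rfl] at h; omega⟩

theorem cone_adj (x y : β ⊕ Fin (D + 1)) : (cone H D).Adj x y ↔ dl H D x y = 1 := Iff.rfl

theorem cone_ll (a b : β) : (cone H D).Adj (inl a) (inl b) ↔ H.Adj a b := by
  simp only [cone_adj, dl]
  split_ifs with h1 h2
  · simp [h1]
  · simp [h2]
  · simp [h2]

theorem cone_dist (x y : β ⊕ Fin (D + 1)) :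
    (cone H D).Reachable x y ∧ (cone H D).dist x y = dl H D x y := by
  refine dist_eq_of (dl H D) (dl_zero H D) ?_ ?_ x y
  · intro x u v h
    rw [cone_adj] at h
    rcases x with a | i <;> rcases u with b | j <;> rcases v with c | k <;>
      simp only [dl] at h ⊢
    · by_cases e : a = b
      · subst e
        rw [h]; omega
      · split_ifs <;> omega
    · omega
    · split_ifs <;> omega
    · omega
    · omega
    · omega
    · omega
    · omega
  · intro x y k h
    simp only [cone_adj]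
    rcases x with a | i <;> rcases y with b | j <;> simp only [dl] at h
    · rcases k with _ | k
      · exact ⟨inl a, h, by simp [dl]⟩
      · refine ⟨inr 0, by simp [dl], ?_⟩
        simp only [dl, Fin.val_zero]
        split_ifs at h <;> omega
    · rcases k with _ | k
      · exact ⟨inl a, h, by simp [dl]⟩
      · exact ⟨inr ⟨k, by omega⟩, by simp only [dl]; omega, by simp only [dl]⟩
    · exact ⟨inr 0, by simp [dl], by simp only [dl, Fin.val_zero]; omega⟩
    · by_cases e : (i : ℕ) < j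
      · exact ⟨inr ⟨j - 1, by omega⟩, by simp only [dl]; omega, by simp only [dl]; omega⟩
      · exact ⟨inr ⟨j + 1, by omega⟩, by simp only [dl]; omega, by simp only [dl]; omega⟩

theorem cone_conn : (cone H D).Connected :=
  { preconnected := fun x y => (cone_dist H D x y).1, nonempty := ⟨inr 0⟩ }

theorem cone_ne_top (hD : 2 ≤ D) : cone H D ≠ ⊤ := fun e => by
  have : (cone H D).Adj (inr 0) (inr ⟨2, by omega⟩) := by rw [e]; simp [Fin.ext_iff]
  simp [cone_adj, dl] at this

variable [Fintype β]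

theorem nu_cone (u v : β ⊕ Fin (D + 1)) :
    nu (cone H D) u v = (univ.filter fun w => dl H D w u < dl H D w v).card := by
  simp only [nu, (cone_dist H D _ _).2]

theorem nu_leaf (a : β) (i : Fin (D + 1)) (h : (i : ℕ) = 0) : nu (cone H D) (inl a) (inr i) ≤ 1 := by
  rw [nu_cone]
  refine card_le_one.2 fun x hx y hy => ?_
  have k : ∀ x, dl H D x (inl a) < dl H D x (inr i) → x = inl a := fun x hx => by
    rcases x with c | j
    · exact (dl_zero H D _ _).1 (by simp only [dl] at hx ⊢; omega)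
    · simp only [dl] at hx; omega
  rw [k x (mem_filter.1 hx).2, k y (mem_filter.1 hy).2]

theorem nu_tail (i j : Fin (D + 1)) (h : (j : ℕ) ≤ i) : nu (cone H D) (inr i) (inr j) ≤ D + 1 := by
  rw [nu_cone]
  have : (univ.filter fun w => dl H D w (inr i) < dl H D w (inr j)) ⊆ univ.image inr := by
    intro x hx
    rcases x with c | k
    · have := (mem_filter.1 hx).2
      simp only [dl] at this
      omega
    · simp
  exact (card_le_card this).trans (card_image_le.trans (by simp))

theorem sum_EE (g : (β ⊕ Fin (D + 1)) × (β ⊕ Fin (D + 1)) → ℝ) :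
    ∑ e ∈ EE (cone H D), g e = ∑ e ∈ EE H, g (inl e.1, inl e.2) + ∑ a, g (inl a, inr 0) +
      (∑ a, g (inr 0, inl a) + ∑ i : Fin (D + 1), ∑ j : Fin (D + 1),
        if ((i : ℕ) - j) + (j - i) = 1 then g (inr i, inr j) else 0) := by
  simp only [EE, sum_filter, Fintype.sum_prod_type, Fintype.sum_sum_type, sum_add_distrib, cone_ll]
  simp only [cone_adj, dl, Nat.add_eq_right, Fin.val_eq_zero_iff, sum_ite_eq', mem_univ, if_true]
  rw [sum_comm (s := (univ : Finset (Fin (D + 1)))) (t := (univ : Finset β))]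
  simp only [sum_ite_eq', mem_univ, if_true]
  ring

variable {t : ℕ} (hT : ∀ a b, H.Adj a b → nu (cone H D) (inl a) (inl b) = t)
include hT

theorem sz_main (α : ℝ) : ∑ e ∈ EE H, pe (cone H D) (inl e.1, inl e.2) ^ α =
    (EE H).card * ((t : ℝ) ^ 2) ^ α := by
  rw [← nsmul_eq_mul, ← sum_const]
  refine sum_congr rfl fun e he => ?_
  have h := mem_EE.1 he
  simp only [pe, hT _ _ h, hT _ _ h.symm]
  push_cast
  rw [sq]

theorem sz_lower (α : ℝ) : (EE H).card * ((t : ℝ) ^ 2) ^ α ≤ ∑ e ∈ EE (cone H D), pe (cone H D) e ^ α := by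
  rw [sum_EE, sz_main H D hT]
  have p0 : ∀ e, 0 ≤ pe (cone H D) e ^ α := fun e => by unfold pe; positivity
  have h1 : 0 ≤ ∑ a, pe (cone H D) (inl a, inr 0) ^ α := sum_nonneg fun _ _ => p0 _
  have h2 : 0 ≤ ∑ a, pe (cone H D) (inr 0, inl a) ^ α := sum_nonneg fun _ _ => p0 _
  have h3 : 0 ≤ ∑ i : Fin (D + 1), ∑ j : Fin (D + 1),
      if ((i : ℕ) - j) + (j - i) = 1 then pe (cone H D) (inr i, inr j) ^ α else 0 :=
    sum_nonneg fun _ _ => sum_nonneg fun _ _ => by split_ifs; exacts [p0 _, le_rfl]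
  linarith

theorem sz_upper {α : ℝ} (hα : 0 ≤ α) {n : ℕ} (hn : Fintype.card (β ⊕ Fin (D + 1)) = n) :
    ∑ e ∈ EE (cone H D), pe (cone H D) e ^ α ≤ (EE H).card * ((t : ℝ) ^ 2) ^ α +
      2 * n * (n : ℝ) ^ α + 2 * (D + 1) * ((n : ℝ) * (D + 1)) ^ α := by
  rw [sum_EE, sz_main H D hT]
  have p0 : ∀ e, 0 ≤ pe (cone H D) e := fun e => by unfold pe; positivity
  have hb : (Fintype.card β : ℝ) ≤ n := by
    rw [← hn, Fintype.card_sum]
    exact_mod_cast Nat.le_add_right _ _
  have q : ∀ g : β → ℝ, (∀ a, g a ≤ (n : ℝ) ^ α) → ∑ a, g a ≤ n * (n : ℝ) ^ α := fun g hg => by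
    have := sum_le_card_nsmul univ g _ fun a _ => hg a
    rw [nsmul_eq_mul, card_univ] at this
    exact this.trans (mul_le_mul_of_nonneg_right hb (by positivity))
  have h1 := q (fun a => pe (cone H D) (inl a, inr 0) ^ α) fun a =>
    Real.rpow_le_rpow (p0 _) (by
      have := Nat.mul_le_mul (nu_leaf H D a 0 rfl) (nu_le (G := cone H D) (inr 0) (inl a))
      rw [hn, one_mul] at this
      unfold pe
      exact_mod_cast this) hα
  have h2 := q (fun a => pe (cone H D) (inr 0, inl a) ^ α) fun a =>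
    Real.rpow_le_rpow (p0 _) (by
      have := Nat.mul_le_mul (nu_le (G := cone H D) (inr 0) (inl a)) (nu_leaf H D a 0 rfl)
      rw [hn, mul_one] at this
      unfold pe
      exact_mod_cast this) hα
  have h3 : ∀ i : Fin (D + 1), (∑ j : Fin (D + 1),
      if ((i : ℕ) - j) + (j - i) = 1 then pe (cone H D) (inr i, inr j) ^ α else 0) ≤
      2 * ((n : ℝ) * (D + 1)) ^ α := fun i => by
    rw [← sum_filter]
    refine (sum_le_card_nsmul _ _ (((n : ℝ) * (D + 1)) ^ α) fun j _ => ?_).trans ?_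
    · refine Real.rpow_le_rpow (p0 _) ?_ hα
      unfold pe
      rcases le_total (j : ℕ) i with h | h
      · have := Nat.mul_le_mul (nu_tail H D i j h) (nu_le (G := cone H D) (inr j) (inr i))
        rw [hn, mul_comm (D + 1)] at this
        exact_mod_cast this
      · have := Nat.mul_le_mul (nu_le (G := cone H D) (inr i) (inr j)) (nu_tail H D j i h)
        rw [hn] at this
        exact_mod_cast this
    · rw [nsmul_eq_mul]
      refine mul_le_mul_of_nonneg_right ?_ (by positivity)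
      have : (univ.filter fun j : Fin (D + 1) => ((i : ℕ) - j) + (j - i) = 1).card ≤
          ({(i : ℕ) + 1, (i : ℕ) - 1} : Finset ℕ).card :=
        card_le_card_of_injOn (fun j => (j : ℕ)) (fun j hj => by
          have := (mem_filter.1 hj).2
          simp only [coe_insert, coe_singleton, Set.mem_insert_iff, Set.mem_singleton_iff]
          omega) fun _ _ _ _ e => Fin.ext e
      exact_mod_cast this.trans card_le_two
  have h4 := sum_le_card_nsmul univ _ _ fun i _ => h3 i
  rw [nsmul_eq_mul, card_univ, Fintype.card_fin] at h4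
  push_cast at h4
  linarith

omit hT

theorem sum_PP (g : ℕ → ℝ) (g0 : g 0 = 0) :
    ∑ e ∈ PP (β ⊕ Fin (D + 1)), g ((cone H D).dist e.1 e.2) =
      ∑ a, ∑ b, g (dl H D (inl a) (inl b)) + 2 * (Fintype.card β) * ∑ i ∈ range (D + 1), g (i + 1) +
      ∑ i : Fin (D + 1), ∑ j : Fin (D + 1), g (((i : ℕ) - j) + (j - i)) := by
  have : ∑ e ∈ PP (β ⊕ Fin (D + 1)), g ((cone H D).dist e.1 e.2) =
      ∑ e : (β ⊕ Fin (D + 1)) × (β ⊕ Fin (D + 1)), g ((cone H D).dist e.1 e.2) :=
    sum_subset (subset_univ _) fun e _ he => by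
      rw [mem_PP, not_not] at he
      simp [he, g0]
  rw [this, ← Fin.sum_univ_eq_sum_range (fun i => g (i + 1))]
  simp only [(cone_dist H D _ _).2, Fintype.sum_prod_type, Fintype.sum_sum_type, sum_add_distrib]
  simp only [dl, sum_const, card_univ, nsmul_eq_mul, ← mul_sum]
  ring

theorem w_lower {α : ℝ} (hα : 0 < α) :
    2 * (Fintype.card β) * ∑ i ∈ range (D + 1), ((i : ℝ) + 1) ^ α ≤
      ∑ e ∈ PP (β ⊕ Fin (D + 1)), de (cone H D) e ^ α := by
  have := sum_PP H D (fun k => (k : ℝ) ^ α) (by simp [hα.ne'])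
  simp only [de]
  rw [this]
  have h1 : 0 ≤ ∑ a, ∑ b, (dl H D (inl a) (inl b) : ℝ) ^ α := by positivity
  have h2 : 0 ≤ ∑ i : Fin (D + 1), ∑ j : Fin (D + 1), (((((i : ℕ) - j) + (j - i) : ℕ)) : ℝ) ^ α := by
    positivity
  push_cast at h2 ⊢
  linarith

theorem w_upper {α : ℝ} (hα : 0 < α) (hα1 : α ≤ 1) :
    ∑ e ∈ PP (β ⊕ Fin (D + 1)), de (cone H D) e ^ α ≤
      2 * (Fintype.card β) * ∑ i ∈ range (D + 1), ((i : ℝ) + 1) ^ α +
        2 * (Fintype.card β : ℝ) ^ 2 + ((D : ℝ) + 1) ^ 3 := by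
  have := sum_PP H D (fun k => (k : ℝ) ^ α) (by simp [hα.ne'])
  simp only [de]
  rw [this]
  have q : ∀ k m : ℕ, k ≤ m → (k : ℝ) ^ α ≤ m := fun k m h => by
    rcases Nat.eq_zero_or_pos k with rfl | hk
    · simp [hα.ne']
    · exact (Real.rpow_le_self_of_one_le (by exact_mod_cast hk) hα1).trans (by exact_mod_cast h)
  have h1 : ∑ a, ∑ b, (dl H D (inl a) (inl b) : ℝ) ^ α ≤ ∑ _a : β, ∑ _b : β, ((2 : ℕ) : ℝ) :=
    sum_le_sum fun a _ => sum_le_sum fun b _ => q _ _ (by simp only [dl]; split_ifs <;> omega)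
  have h2 : ∑ i : Fin (D + 1), ∑ j : Fin (D + 1), (((((i : ℕ) - j) + (j - i) : ℕ)) : ℝ) ^ α ≤
      ∑ _i : Fin (D + 1), ∑ _j : Fin (D + 1), ((D + 1 : ℕ) : ℝ) :=
    sum_le_sum fun i _ => sum_le_sum fun j _ => q _ _ (by omega)
  simp only [sum_const, card_univ, nsmul_eq_mul, Fintype.card_fin] at h1 h2
  push_cast at h1 h2 ⊢
  linarith

end Pool.Agent.MP_dd6dde_co.Thr
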