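import Mathlib.Tactic.IntervalCases
import Pool.Agent.MP_dd6dde_co.Thr.Up

/-! Counting along a diametral path. -/

namespace Pool.Agent.MP_dd6dde_co.Thr

open Finset
open scoped Classical

variable {V : Type} [Fintype V] {G : SimpleGraph V}

theorem max_sum_ge (D : ℕ) : ∀ a : ℝ, ((D : ℝ) + 2) ^ 2 + 2 * (D + 2) + 16 ≤
    4 * ∑ i ∈ range (D + 2 + 1), max 2 |a - i| := by
  induction D using Nat.twoStepInduction with
  | zero =>
    intro a
    have := card_nsmul_le_sum (range 3) (fun i : ℕ => max (2 : ℝ) |a - i|) 2 fun i _ => le_max_left _ _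
    norm_num at this ⊢
    linarith
  | one =>
    intro a
    have := card_nsmul_le_sum (range 4) (fun i : ℕ => max (2 : ℝ) |a - i|) 2 fun i _ => le_max_left _ _
    norm_num at this ⊢
    linarith
  | more D ih _ =>
    intro a
    rw [sum_range_succ, sum_range_succ']
    have h1 := ih (a - 1)
    have e : ∑ i ∈ range (D + 2 + 1), max 2 |a - ((i + 1 : ℕ) : ℝ)| =
        ∑ i ∈ range (D + 2 + 1), max 2 |a - 1 - i| :=
      sum_congr rfl fun i _ => by push_cast; ring_nf
    have h2 := (le_abs_self _).trans (le_max_right 2 |a - ((0 : ℕ) : ℝ)|)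
    have h3 := (neg_le_abs _).trans (le_max_right 2 |a - ((D + 2 + 2 : ℕ) : ℝ)|)
    rw [e]
    generalize max 2 |a - ((D + 2 + 2 : ℕ) : ℝ)| = w at h3 ⊢
    push_cast at h2 h3 ⊢
    linarith

theorem path_sums (D : ℕ) :
    3 * ∑ i ∈ range (D + 1), ∑ j ∈ range (D + 1), ((i - j) + (j - i)) = D * (D + 1) * (D + 2) ∧
    ∑ i ∈ range (D + 1), ∑ j ∈ range (D + 1), (if (i - j) + (j - i) = 1 then 1 else 0) = 2 * D := by
  have step : ∀ (φ : ℕ → ℕ) (n : ℕ), ∑ i ∈ range (n + 1), ∑ j ∈ range (n + 1), φ ((i - j) + (j - i)) =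
      ∑ i ∈ range n, ∑ j ∈ range n, φ ((i - j) + (j - i)) + 2 * ∑ i ∈ range n, φ (i + 1) + φ 0 := by
    intro φ n
    have e : ∑ i ∈ range n, φ (i - n + (n - i)) = ∑ i ∈ range n, φ (i + 1) := by
      rw [← sum_range_reflect]
      exact sum_congr rfl fun i hi => by have := mem_range.1 hi; congr 1; omega
    have e' : ∑ i ∈ range n, φ (n - i + (i - n)) = ∑ i ∈ range n, φ (i + 1) := by
      rw [← e]
      exact sum_congr rfl fun i _ => by rw [add_comm]
    simp only [sum_range_succ, sum_add_distrib, e, e', Nat.sub_self]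
    ring
  induction D with
  | zero => simp
  | succ D ih =>
    constructor
    · have h1 := step id (D + 1)
      have h2 := sum_range_id_mul_two (D + 2)
      rw [sum_range_succ'] at h2
      simp only [id, show D + 2 - 1 = D + 1 from rfl] at h1 h2
      rw [h1]
      nlinarith [ih.1]
    · have h1 := step (fun k => if k = 1 then 1 else 0) (D + 1)
      rw [h1, ih.2, sum_range_succ']
      simp
      ring

theorem count_path (hc : G.Connected) (u v : V) (h2 : 2 ≤ G.dist u v) : ∃ k : ℕ,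
    Fintype.card V = G.dist u v + 1 + k ∧
    (EE G).card ≤ 2 * G.dist u v + 6 * k + k * (k - 1) ∧
    2 * G.dist u v * (G.dist u v + 1) * (G.dist u v + 2) + 12 * G.dist u v +
      3 * k * (G.dist u v ^ 2 + 2 * G.dist u v + 16) + 12 * (k * (k - 1)) ≤
      6 * (∑ x, ∑ y, G.dist x y + (EE G).card) := by
  obtain ⟨f, h0, -, -, hf⟩ := geo hc u v
  obtain ⟨D, hD⟩ : ∃ D, D = G.dist u v := ⟨_, rfl⟩
  rw [← hD] at hf h2 ⊢
  have hd : ∀ i ∈ range (D + 1), ∀ j ∈ range (D + 1), G.dist (f i) (f j) = (i - j) + (j - i) := by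
    intro i hi j hj
    rw [mem_range] at hi hj
    rcases le_total i j with h | h
    · rw [hf i j h (by omega)]; omega
    · rw [G.dist_comm, hf j i h (by omega)]; omega
  have inj : Set.InjOn f (range (D + 1) : Finset ℕ) := fun i hi j hj e => by
    have := hd i hi j hj
    rw [e, SimpleGraph.dist_self] at this
    omega
  set P := (range (D + 1)).image f with hP
  have hPc : P.card = D + 1 := by rw [hP, card_image_of_injOn inj, card_range]
  have split : ∀ g : V → V → ℕ, (∀ x y, g x y = g y x) → ∑ x, ∑ y, g x y =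
      ∑ i ∈ range (D + 1), ∑ j ∈ range (D + 1), g (f i) (f j) +
      2 * ∑ x ∈ Pᶜ, ∑ j ∈ range (D + 1), g x (f j) + ∑ x ∈ Pᶜ, ∑ y ∈ Pᶜ, g x y := by
    intro g hg
    have e : ∑ x ∈ P, ∑ y ∈ Pᶜ, g x y = ∑ x ∈ Pᶜ, ∑ y ∈ P, g x y := by
      rw [sum_comm]
      exact sum_congr rfl fun _ _ => sum_congr rfl fun _ _ => hg _ _
    simp only [← sum_add_sum_compl P, sum_add_distrib, e]
    simp only [hP, sum_image inj]
    ring
  let a : V → V → ℕ := fun x y => if G.Adj x y then 1 else 0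
  have ha : ∀ x y, a x y = a y x := fun x y => by simp only [a, G.adj_comm x]
  have hE : (EE G).card = ∑ x, ∑ y, a x y := by
    simp only [EE, card_filter, Fintype.sum_prod_type, a]
  have hPP : ∑ i ∈ range (D + 1), ∑ j ∈ range (D + 1), a (f i) (f j) = 2 * D := by
    rw [← (path_sums D).2]
    refine sum_congr rfl fun i hi => sum_congr rfl fun j hj => ?_
    simp only [a, ← hd i hi j hj, SimpleGraph.dist_eq_one_iff_adj]
  have hg : ∀ x y, x ≠ y → 2 ≤ G.dist x y + a x y := fun x y h => by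
    simp only [a]
    split_ifs with h'
    · rw [SimpleGraph.dist_eq_one_iff_adj.2 h']
    · exact hc.one_lt_dist_of_ne_of_not_adj h h'
  have offd : ∀ x ∈ Pᶜ, (Pᶜ.erase x).card = Pᶜ.card - 1 := fun x hx => card_erase_of_mem hx
  refine ⟨Pᶜ.card, by rw [← hPc, card_add_card_compl], ?_, ?_⟩
  · rw [hE, split a ha, hPP]
    have h3 : ∑ x ∈ Pᶜ, ∑ j ∈ range (D + 1), a x (f j) ≤ Pᶜ.card * 3 := by
      refine sum_le_card_nsmul _ _ 3 fun x _ => ?_
      rw [← card_filter]
      rcases ((range (D + 1)).filter fun j => G.Adj x (f j)).eq_empty_or_nonempty with e | e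
      · simp [e]
      have hm := min'_mem _ e
      refine (card_le_card (t := Icc (min' _ e) (min' _ e + 2)) fun j hj => ?_).trans
        (by rw [Nat.card_Icc]; omega)
      have h4 := min'_le _ j hj
      rw [mem_filter] at hm hj
      have h5 := hd _ hm.1 j hj.1
      have h6 := dist_adj hc hj.2 (f (min' _ e))
      rw [SimpleGraph.dist_eq_one_iff_adj.2 hm.2.symm] at h6
      exact mem_Icc.2 ⟨h4, by omega⟩
    have h4 : ∑ x ∈ Pᶜ, ∑ y ∈ Pᶜ, a x y ≤ Pᶜ.card * (Pᶜ.card - 1) := by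
      refine sum_le_card_nsmul _ _ _ fun x hx => ?_
      rw [← card_filter, ← offd x hx]
      exact card_le_card fun y hy => mem_erase.2 ⟨(mem_filter.1 hy).2.ne', (mem_filter.1 hy).1⟩
    omega
  · have e : ∑ x, ∑ y, G.dist x y + (EE G).card = ∑ x, ∑ y, (G.dist x y + a x y) := by
      simp only [hE, sum_add_distrib]
    rw [e, split _ fun x y => by rw [ha, G.dist_comm]]
    have h3 : 3 * ∑ i ∈ range (D + 1), ∑ j ∈ range (D + 1), (G.dist (f i) (f j) + a (f i) (f j)) =
        D * (D + 1) * (D + 2) + 6 * D := by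
      simp only [sum_add_distrib, hPP, mul_add]
      rw [sum_congr rfl fun i hi => sum_congr rfl fun j hj => hd i hi j hj, (path_sums D).1]
      ring
    have h4 : Pᶜ.card * (D ^ 2 + 2 * D + 16) ≤
        ∑ x ∈ Pᶜ, 4 * ∑ j ∈ range (D + 1), (G.dist x (f j) + a x (f j)) := by
      refine card_nsmul_le_sum Pᶜ _ (D ^ 2 + 2 * D + 16) fun x hx => ?_
      obtain ⟨E, rfl⟩ : ∃ E, D = E + 2 := ⟨D - 2, by omega⟩
      have h5 := max_sum_ge E (G.dist x (f 0))
      have h6 : ∑ i ∈ range (E + 2 + 1), max (2 : ℝ) |(G.dist x (f 0) : ℝ) - i| ≤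
          ∑ j ∈ range (E + 2 + 1), ((G.dist x (f j) + a x (f j) : ℕ) : ℝ) := by
        refine sum_le_sum fun i hi => max_le ?_ ?_
        · exact_mod_cast hg x (f i) fun e => (mem_compl.1 hx) (e ▸ mem_image_of_mem f hi)
        · have a0 := hd 0 (by simp) i hi
          have a1 := hc.dist_triangle (u := x) (v := f i) (w := f 0)
          have a2 := hc.dist_triangle (u := f 0) (v := x) (w := f i)
          rw [G.dist_comm (u := f i)] at a1
          rw [G.dist_comm (u := f 0) (v := x)] at a2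
          have b1 : (G.dist x (f 0) : ℝ) ≤ (G.dist x (f i) + a x (f i) : ℕ) + i := by
            exact_mod_cast (by omega : G.dist x (f 0) ≤ G.dist x (f i) + a x (f i) + i)
          have b2 : (i : ℝ) ≤ G.dist x (f 0) + (G.dist x (f i) + a x (f i) : ℕ) := by
            exact_mod_cast (by omega : i ≤ G.dist x (f 0) + (G.dist x (f i) + a x (f i)))
          exact abs_le.2 ⟨by linarith, by linarith⟩
      rw [← Nat.cast_sum] at h6
      have h7 : (((E + 2) ^ 2 + 2 * (E + 2) + 16 : ℕ) : ℝ) ≤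
          ((4 * ∑ j ∈ range (E + 2 + 1), (G.dist x (f j) + a x (f j)) : ℕ) : ℝ) := by
        rw [Nat.cast_mul]
        push_cast at h5 ⊢ h6
        linarith
      exact_mod_cast h7
    have h5 : Pᶜ.card * ((Pᶜ.card - 1) * 2) ≤ ∑ x ∈ Pᶜ, ∑ y ∈ Pᶜ, (G.dist x y + a x y) := by
      refine card_nsmul_le_sum _ _ _ fun x hx => ?_
      rw [← offd x hx]
      exact (card_nsmul_le_sum _ _ 2 fun y hy => hg x y (mem_erase.1 hy).1.symm).trans
        (sum_le_sum_of_subset (erase_subset _ _))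
    rw [← mul_sum] at h4
    nlinarith

theorem arith_fin : ∀ n < 121, ∀ D < n, 21 ≤ n → 5 ≤ D → 64 * (D - 1) ^ 2 * n ^ 3 ≤
    (2 * D * (D + 1) * (D + 2) + 12 * D + 3 * (n - D - 1) * (D ^ 2 + 2 * D + 16) +
      12 * ((n - D - 1) * (n - D - 1 - 1))) ^ 2 := by decide +kernel

theorem arith {D k M T : ℕ} (hD : 5 ≤ D) (h1 : M ≤ 2 * D + 6 * k + k * (k - 1))
    (h2 : 2 * D * (D + 1) * (D + 2) + 12 * D + 3 * k * (D ^ 2 + 2 * D + 16) + 12 * (k * (k - 1)) ≤
      6 * T) (h3 : M ≤ 6 * (D + 1 + k) ∨ 9 * M ^ 2 ≤ 16 * (D + 1 + k) ^ 3) :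
    (if D = 5 then 16 else 4 * D - 5) * M ≤ 4 * T := by
  by_cases hn : D + 1 + k ≤ 20
  · have h4 : M ≤ 6 * (D + 1 + k) := by
      rcases h3 with h | h
      · exact h
      · refine Nat.le_of_lt_succ (lt_of_pow_lt_pow_left₀ 2 (by positivity) ?_)
        have := Nat.mul_le_mul_left ((D + 1 + k) ^ 2) hn
        nlinarith
    have hD' : D ≤ 19 := by omega
    have hk : k ≤ 14 := by omega
    interval_cases D <;> interval_cases k <;> simp <;> omega
  have h4 : 9 * M ^ 2 ≤ 16 * (D + 1 + k) ^ 3 := by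
    rcases h3 with h | h
    · have a1 := Nat.pow_le_pow_left h 2
      have a2 := Nat.mul_le_mul_left ((D + 1 + k) ^ 2) (show 21 ≤ D + 1 + k by omega)
      nlinarith
    · exact h
  have h5 : (D - 1) * M ≤ T := by
    suffices h : 64 * (D - 1) ^ 2 * (D + 1 + k) ^ 3 ≤ (6 * T) ^ 2 by
      have a1 := Nat.mul_le_mul_left (4 * (D - 1) ^ 2) h4
      have a2 : (6 * ((D - 1) * M)) ^ 2 ≤ (6 * T) ^ 2 := by nlinarith
      have := (Nat.pow_le_pow_iff_left two_ne_zero).1 a2
      omega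
    refine le_trans ?_ (Nat.pow_le_pow_left h2 2)
    by_cases hn' : D + 1 + k < 121
    · have := arith_fin _ hn' D (by omega) (by omega) hD
      rwa [show D + 1 + k - D - 1 = k by omega] at this
    obtain ⟨E, rfl⟩ : ∃ E, D = E + 1 := ⟨D - 1, by omega⟩
    have hk : ((k * (k - 1) : ℕ) : ℝ) = k * (k - 1) := by
      rcases k with _ | k <;> simp
    rw [Nat.add_sub_cancel, ← Nat.cast_le (α := ℝ)]
    push_cast [hk]
    have hE : (4 : ℝ) ≤ E := by exact_mod_cast (by omega : 4 ≤ E)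
    have hk0 : (0 : ℝ) ≤ k := by positivity
    obtain ⟨s, hs0, hs⟩ : ∃ s : ℝ, 0 ≤ s ∧ s ^ 2 = E + 1 + 1 + k :=
      ⟨_, Real.sqrt_nonneg _, Real.sq_sqrt (by positivity)⟩
    have hs1 : 11 ≤ s := by
      have : (121 : ℝ) ≤ E + 1 + 1 + k := by exact_mod_cast not_lt.1 hn'
      nlinarith
    rw [← hs, show 64 * (E : ℝ) ^ 2 * (s ^ 2) ^ 3 = (8 * E * s ^ 3) ^ 2 by ring]
    refine pow_le_pow_left₀ (by positivity) ?_ 2
    obtain ⟨x, hx⟩ : ∃ x : ℝ, x = E + 1 := ⟨_, rfl⟩
    have hE' : (E : ℝ) = x - 1 := by linarith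
    have hk' : (k : ℝ) = s ^ 2 - x - 1 := by linarith
    have x5 : 5 ≤ x := by linarith
    have b1 : x ≤ s ^ 2 := by linarith
    have b2 := mul_le_mul_of_nonneg_left b1 (sq_nonneg x)
    have b3 : 0 ≤ 12 * s ^ 2 + 2 * x ^ 2 - 18 * x - 8 * s * x := by
      have := mul_le_mul_of_nonneg_right hs1 (show 0 ≤ x by linarith)
      nlinarith [sq_nonneg (x - 53 / 22 * s)]
    have b4 := mul_nonneg (sq_nonneg s) b3
    have b5 : 0 ≤ s ^ 3 := by positivity
    have b6 : 0 ≤ 9 * x ^ 2 - 2 * x - 24 := by nlinarith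
    rw [← hx, hE', hk']
    nlinarith
  split_ifs with h
  · subst h; omega
  · have : (4 * D - 5) * M ≤ 4 * (D - 1) * M := Nat.mul_le_mul_right _ (by omega)
    nlinarith

end Pool.Agent.MP_dd6dde_co.Thr
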