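import Pool.Agent.MP_dd6dde_co.Thr.Up

/-! An explicit edge bound for uniqueness of the zero, valid for every order. -/

namespace Pool.Agent.MP_dd6dde_co.Thr

open Finset
open scoped Classical

variable {V : Type} [Fintype V] {G : SimpleGraph V}

theorem abs_sum_ge (k : ℕ) : ∀ a : ℝ, (k : ℝ) ^ 2 / 4 ≤ ∑ i ∈ range (k + 1), |a - i| := by
  induction k with
  | zero => intro a; simp
  | succ k ih =>
    intro a
    by_cases h : a ≤ (k + 1) / 2
    · rw [sum_range_succ]
      have h1 := ih a
      have h2 := neg_le_abs (a - ((k + 1 : ℕ) : ℝ))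
      push_cast at h2 ⊢
      linarith
    · rw [sum_range_succ']
      have h1 := ih (a - 1)
      have h2 := le_abs_self (a - ((0 : ℕ) : ℝ))
      have e : ∑ i ∈ range (k + 1), |a - ((i + 1 : ℕ) : ℝ)| = ∑ i ∈ range (k + 1), |a - 1 - i| :=
        sum_congr rfl fun i _ => by push_cast; ring_nf
      rw [e]
      push_cast at h2 ⊢
      linarith

theorem row_ge (hc : G.Connected) (x u v : V) :
    (G.dist u v : ℝ) ^ 2 / 4 + (Fintype.card V - G.dist u v - 2) ≤ ∑ y, (G.dist x y : ℝ) := by
  obtain ⟨f, h0, -, -, hf⟩ := geo hc u v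
  have h1 : ∀ i ∈ range (G.dist u v + 1), G.dist u (f i) = i := fun i hi => by
    have := hf 0 i (by omega) (by have := mem_range.1 hi; omega)
    rwa [h0] at this
  set P := (range (G.dist u v + 1)).image f with hP
  have h2 : (G.dist u v : ℝ) ^ 2 / 4 ≤ ∑ y ∈ P, (G.dist x y : ℝ) := by
    rw [hP, sum_image fun i hi j hj e => by rw [← h1 i hi, ← h1 j hj, e]]
    refine (abs_sum_ge _ (G.dist x u)).trans (sum_le_sum fun i hi => ?_)
    have a1 := hc.dist_triangle (u := x) (v := f i) (w := u)
    have a2 := hc.dist_triangle (u := u) (v := x) (w := f i)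
    rw [G.dist_comm (u := f i), h1 i hi] at a1
    rw [G.dist_comm (u := u) (v := x), h1 i hi] at a2
    have b1 : (G.dist x u : ℝ) ≤ G.dist x (f i) + i := by exact_mod_cast a1
    have b2 : (i : ℝ) ≤ G.dist x u + G.dist x (f i) := by exact_mod_cast a2
    exact abs_le.2 ⟨by linarith, by linarith⟩
  have h3 : (((univ \ P).erase x).card : ℝ) ≤ ∑ y ∈ univ \ P, (G.dist x y : ℝ) :=
    calc (((univ \ P).erase x).card : ℝ) = ∑ _y ∈ (univ \ P).erase x, (1 : ℝ) := by simp
      _ ≤ ∑ y ∈ (univ \ P).erase x, (G.dist x y : ℝ) := sum_le_sum fun y hy => by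
          exact_mod_cast hc.pos_dist_of_ne (mem_erase.1 hy).1.symm
      _ ≤ _ := sum_le_sum_of_subset_of_nonneg (erase_subset _ _) fun _ _ _ => by positivity
  have h4 : Fintype.card V ≤ ((univ \ P).erase x).card + (G.dist u v + 2) := by
    have a1 := pred_card_le_card_erase (s := univ \ P) (a := x)
    have a2 := card_sdiff_add_card_eq_card (subset_univ P)
    have a3 : P.card ≤ G.dist u v + 1 := card_image_le.trans (by simp)
    rw [card_univ] at a2
    omega
  have h5 : (Fintype.card V : ℝ) ≤ ((univ \ P).erase x).card + (G.dist u v + 2) := by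
    exact_mod_cast h4
  rw [← sum_sdiff (subset_univ P)]
  linarith

theorem unique_explicit (hc : G.Connected) (ht : G ≠ ⊤)
    (hm : ((EE G).card : ℝ) < Fintype.card V * (Real.sqrt (Fintype.card V - 2) - 1)) :
    ∃! α : ℝ, hG G α = 0 := by
  obtain ⟨c, -, -, h⟩ := exists_zero hc (a := 0) (b := 2) (by norm_num)
    (mul_neg_of_neg_of_pos (h_neg hc ht le_rfl) (h_pos hc ht (by norm_num)))
  have : Nonempty V := hc.nonempty
  obtain ⟨e0, -, he0⟩ := exists_max_image univ (de G) univ_nonempty
  obtain ⟨x, y, hxy, -⟩ := exists_far ht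
  have hxy' : (x, y) ∈ PP V := mem_PP.2 hxy
  have hD1 : 1 ≤ de G e0 := (one_le_de hc hxy').trans (he0 _ (mem_univ _))
  have hW : ((EE G).card : ℝ) * de G e0 < ∑ e ∈ PP V, de G e := by
    have h1 := card_nsmul_le_sum univ _ _ fun x _ => row_ge hc x e0.1 e0.2
    rw [nsmul_eq_mul, card_univ, ← sum_PP_de] at h1
    refine (mul_lt_mul_of_pos_right hm (by linarith)).trans_le (le_trans ?_ h1)
    rw [mul_assoc]
    refine mul_le_mul_of_nonneg_left ?_ (by positivity)
    have n2 : (2 : ℝ) ≤ Fintype.card V := by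
      exact_mod_cast Fintype.one_lt_card_iff.2 ⟨x, y, hxy⟩
    have h2 := Real.sq_sqrt (show (0 : ℝ) ≤ Fintype.card V - 2 by linarith)
    have h3 := sq_nonneg (de G e0 / 2 - Real.sqrt (Fintype.card V - 2))
    unfold de at h3 ⊢
    linarith
  have key : ∀ a b, hG G a = 0 → hG G b = 0 → ¬ a < b := fun a b ha hb =>
    zero_unique (deriv_h hc) (fun α h0 => by
      obtain ⟨hα0, hα1⟩ := zero_mem hc ht h0
      obtain ⟨S, hS⟩ : ∃ S, S = ∑ e ∈ PP V, de G e ^ α := ⟨_, rfl⟩
      have hS' : ∑ e ∈ EE G, pe G e ^ α = S := by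
        have := two_h' (G := G) α
        rw [h0] at this
        linarith
      have h1 : de G e0 ^ (α - 1) * ∑ e ∈ PP V, de G e ≤ S := by
        rw [mul_sum, hS]
        exact sum_le_sum fun e he =>
          mul_rpow_le (by linarith [one_le_de hc he]) (he0 e (mem_univ e)) hα1
      have hp : 0 < de G e0 ^ (α - 1) := by positivity
      have e1 : de G e0 ^ (α - 1) * de G e0 = de G e0 ^ α := by
        rw [← Real.rpow_add_one (by linarith), sub_add_cancel]
      have h2 : ((EE G).card : ℝ) * de G e0 ^ α < S := by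
        have := mul_lt_mul_of_pos_left hW hp
        rw [← e1]
        linarith
      have h3 : ∑ e ∈ PP V, de G e ^ α * Real.log (de G e) ≤ S * Real.log (de G e0) := by
        rw [hS, sum_mul]
        refine sum_le_sum fun e he => ?_
        have := one_le_de hc he
        exact mul_le_mul_of_nonneg_left (Real.log_le_log (by linarith) (he0 e (mem_univ e)))
          (by positivity)
      have h4 : ∑ e ∈ EE G, (pe G e ^ α - de G e0 ^ α + pe G e ^ α * (α * Real.log (de G e0))) ≤
          ∑ e ∈ EE G, α * (pe G e ^ α * Real.log (pe G e)) := sum_le_sum fun e he => by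
        have a0 : 0 < pe G e := by linarith [one_le_pe he]
        have a1 : 0 < pe G e ^ α := by positivity
        have a2 : 0 < de G e0 ^ α := by positivity
        have a3 := Real.log_le_sub_one_of_pos (div_pos a2 a1)
        rw [Real.log_div a2.ne' a1.ne', Real.log_rpow a0, Real.log_rpow (by linarith)] at a3
        have a4 := mul_le_mul_of_nonneg_left a3 a1.le
        have a5 : pe G e ^ α * (de G e0 ^ α / pe G e ^ α - 1) = de G e0 ^ α - pe G e ^ α := by
          field_simp
        linarith
      simp only [sum_add_distrib, sum_sub_distrib, ← sum_mul, ← mul_sum, sum_const, nsmul_eq_mul,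
        hS'] at h4
      have h5 := mul_le_mul_of_nonneg_left h3 hα0.le
      have h6 : α * ∑ e ∈ PP V, de G e ^ α * Real.log (de G e) <
          α * ∑ e ∈ EE G, pe G e ^ α * Real.log (pe G e) := by linarith
      have := lt_of_mul_lt_mul_left h6 hα0.le
      linarith) ha hb
  exact ⟨c, h, fun y hy => le_antisymm (not_lt.1 (key c y h hy)) (not_lt.1 (key y c hy h))⟩

end Pool.Agent.MP_dd6dde_co.Thr
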