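import Pool.Agent.MP_dd6dde_co.Thr.Low
import Pool.Agent.MP_dd6dde_co.Thr.Expl

/-! The parameters attached to a large order `n`. -/

namespace Pool.Agent.MP_dd6dde_co.Thr

theorem params {n : ℕ} (hn : ⌈Real.exp (100 ^ 4)⌉₊ ≤ n) : ∃ l σ : ℝ, 100 ≤ l ∧ 0 < σ ∧
    Real.log σ = l ^ 4 / 2 ∧ σ ^ 2 = n ∧
    (n : ℝ) ^ (3 / 2 : ℝ) * Real.log n ^ (3 / 4 : ℝ) = σ ^ 3 * l ^ 3 := by
  have h1 : Real.exp (100 ^ 4) ≤ n := Nat.ceil_le.1 hn
  have h0 : (0 : ℝ) < n := (Real.exp_pos _).trans_le h1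
  have h2 : 100 ^ 4 ≤ Real.log n := (Real.le_log_iff_exp_le h0).2 h1
  have h3 : 0 ≤ Real.log n := le_trans (by norm_num) h2
  have h4 : (Real.log n ^ (1 / 4 : ℝ)) ^ 4 = Real.log n := by
    rw [← Real.rpow_natCast, ← Real.rpow_mul h3]
    norm_num
  refine ⟨Real.log n ^ (1 / 4 : ℝ), (n : ℝ) ^ (1 / 2 : ℝ), ?_, by positivity, ?_, ?_, ?_⟩
  · exact (pow_le_pow_iff_left₀ (by norm_num) (by positivity) (by norm_num : 4 ≠ 0)).1 (h4.symm ▸ h2)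
  · rw [h4, Real.log_rpow h0]
    ring
  · rw [← Real.rpow_natCast, ← Real.rpow_mul h0.le]
    norm_num
  · rw [← Real.rpow_natCast, ← Real.rpow_natCast, ← Real.rpow_mul h0.le, ← Real.rpow_mul h3]
    norm_num

theorem unique_all {V : Type} [Fintype V] {G : SimpleGraph V} (hc : G.Connected) (ht : G ≠ ⊤)
    (hm : ((EE G).card : ℝ) ≤ 2 / 10 ^ 8 *
      ((Fintype.card V : ℝ) ^ (3 / 2 : ℝ) * Real.log (Fintype.card V) ^ (3 / 4 : ℝ))) :
    ∃! α : ℝ, hG G α = 0 := by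
  by_cases hn : ⌈Real.exp (100 ^ 4)⌉₊ ≤ Fintype.card V
  · obtain ⟨l, σ, hl, hσ0, hσ, h2, e⟩ := params hn
    rw [e] at hm
    have : 0 ≤ σ ^ 3 * l ^ 3 := by have : 0 < l := by linarith
                                   positivity
    exact unique_zero hc ht hl hσ0 hσ h2 (by linarith)
  obtain ⟨x, y, hxy, -⟩ := exists_far ht
  have n2 : (2 : ℝ) ≤ Fintype.card V := by
    exact_mod_cast Fintype.one_lt_card_iff.2 ⟨x, y, hxy⟩
  have hE : (1 : ℝ) ≤ (EE G).card := by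
    obtain ⟨f, -, -, ha, -⟩ := geo hc x y
    have : (f 0, f (0 + 1)) ∈ EE G := mem_EE.2 (ha 0 (hc.pos_dist_of_ne hxy))
    exact_mod_cast Finset.card_pos.2 ⟨_, this⟩
  refine unique_explicit hc ht ?_
  obtain ⟨n, hnV⟩ : ∃ n : ℕ, n = Fintype.card V := ⟨_, rfl⟩
  rw [← hnV] at hn hm n2 ⊢
  have h1 : (n : ℝ) < Real.exp (100 ^ 4) := Nat.lt_ceil.1 (not_le.1 hn)
  have h2 : Real.log n ≤ 100 ^ 4 := (Real.log_le_iff_le_exp (by linarith)).2 h1.le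
  have h3 : Real.log n ^ (3 / 4 : ℝ) ≤ 100 ^ 3 := by
    refine (Real.rpow_le_rpow (Real.log_nonneg (by linarith)) h2 (by norm_num)).trans_eq ?_
    rw [← Real.rpow_natCast, ← Real.rpow_mul (by norm_num), ← Real.rpow_natCast]
    norm_num
  obtain ⟨s, hs0, hs⟩ : ∃ s : ℝ, 0 ≤ s ∧ s ^ 2 = n := ⟨_, Real.sqrt_nonneg _, Real.sq_sqrt (by linarith)⟩
  have h4 : (n : ℝ) ^ (3 / 2 : ℝ) = n * s := by
    rw [← hs, ← pow_succ, ← Real.rpow_natCast, ← Real.rpow_mul hs0, ← Real.rpow_natCast]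
    norm_num
  have h5 : ((EE G).card : ℝ) ≤ n * (s / 50) := by
    have := mul_le_mul_of_nonneg_left h3 (show 0 ≤ (n : ℝ) * s by positivity)
    rw [h4] at hm
    linarith
  by_cases h6 : s ≤ 2
  · have h7 : (n : ℝ) ≤ 4 := by nlinarith
    have := mul_le_mul h7 h6 hs0 (by norm_num)
    linarith
  · refine h5.trans_lt (mul_lt_mul_of_pos_left ?_ (by linarith))
    have : s / 50 + 1 < Real.sqrt (n - 2) := Real.lt_sqrt_of_sq_lt (by nlinarith)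
    linarith

end Pool.Agent.MP_dd6dde_co.Thr
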