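import Mathlib.Analysis.Convex.SpecificFunctions.Basic
import Pool.Agent.MP_dd6dde_co.Up
import Pool.Agent.MP_dd6dde_co.Thr.Count
import Pool.Agent.MP_dd6dde_co.Thr.Main

/-! Explicit edge bounds for uniqueness of the zero, valid for every order. -/

namespace Pool.Agent.MP_dd6dde_co.Thr

open Finset
open scoped Classical

variable {V : Type} [Fintype V] {G : SimpleGraph V}

theorem scale_ineq {u D t : ℝ} (hu : 0 ≤ u) (hD : 0 < D) (ht0 : 0 < t) (ht1 : t ≤ 1)
    (h : u * Real.log D < (1 + u) * Real.log (1 + u)) :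
    t * u * Real.log (t * D) < (1 + t * u) * Real.log (1 + t * u) := by
  have p : 0 ≤ t * u := by positivity
  have h1 : t * Real.log (1 + u) ≤ Real.log (1 + t * u) := by
    rw [← Real.log_rpow (by linarith)]
    exact Real.log_le_log (by positivity)
      (rpow_one_add_le_one_add_mul_self (by linarith) ht0.le ht1)
  have h2 : Real.log t + Real.log (1 + u) ≤ Real.log (1 + t * u) := by
    rw [← Real.log_mul ht0.ne' (by positivity)]
    exact Real.log_le_log (by positivity) (by linarith)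
  have h3 := mul_le_mul_of_nonneg_left h2 p
  have h4 := mul_lt_mul_of_pos_left h ht0
  rw [Real.log_mul ht0.ne' hD.ne']
  linarith

theorem deriv_pos' (hc : G.Connected) {u D α : ℝ} (hu : 0 < u) (hD : ∀ e, de G e ≤ D) (hD1 : 1 ≤ D)
    (h : u * Real.log D < (1 + u) * Real.log (1 + u)) (hE : (0 : ℝ) < (EE G).card)
    (hW : (1 + u) * (EE G).card ≤ ∑ e ∈ PP V, de G e) (hα0 : 0 < α) (hα1 : α ≤ 1)
    (h0 : hG G α = 0) :
    ∑ e ∈ PP V, de G e ^ α * Real.log (de G e) < ∑ e ∈ EE G, pe G e ^ α * Real.log (pe G e) := by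
  obtain ⟨S, hS⟩ : ∃ S, S = ∑ e ∈ PP V, de G e ^ α := ⟨_, rfl⟩
  have hS' : ∑ e ∈ EE G, pe G e ^ α = S := by
    have := two_h' (G := G) α
    rw [h0] at this
    linarith
  have hm : ∑ e ∈ PP V, (if G.Adj e.1 e.2 then (1 : ℝ) else 0) = (EE G).card := by
    rw [sum_boole]
    congr 2
    ext e
    simp only [mem_filter, mem_PP, mem_EE]
    exact ⟨fun h => h.2, fun h => ⟨h.ne, h⟩⟩
  have one : ∀ e : V × V, G.Adj e.1 e.2 → de G e = 1 := fun e he => by
    simp [de, SimpleGraph.dist_eq_one_iff_adj.2 he]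
  obtain ⟨t, ht⟩ : ∃ t, t = D ^ (α - 1) := ⟨_, rfl⟩
  have ht0 : 0 < t := by rw [ht]; positivity
  have ht1 : t ≤ 1 := ht ▸ Real.rpow_le_one_of_one_le_of_nonpos hD1 (by linarith)
  have e1 : Real.log (t * D) = α * Real.log D := by
    rw [ht, ← Real.rpow_add_one (by linarith), sub_add_cancel, Real.log_rpow (by linarith)]
  have h1 : t * (∑ e ∈ PP V, de G e - (EE G).card) ≤ S - (EE G).card := by
    rw [hS, ← hm, ← sum_sub_distrib, ← sum_sub_distrib, mul_sum]
    refine sum_le_sum fun e he => ?_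
    split_ifs with h'
    · simp [one e h']
    · rw [sub_zero, sub_zero, ht]
      exact mul_rpow_le (by linarith [one_le_de hc he]) (hD e) hα1
  have h3 : ∑ e ∈ PP V, de G e ^ α * Real.log (de G e) ≤ (S - (EE G).card) * Real.log D := by
    rw [hS, ← hm, ← sum_sub_distrib, sum_mul]
    refine sum_le_sum fun e he => ?_
    split_ifs with h'
    · simp [one e h']
    · have := one_le_de hc he
      rw [sub_zero]
      exact mul_le_mul_of_nonneg_left (Real.log_le_log (by linarith) (hD e)) (by positivity)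
  have p : 0 < t * u := by positivity
  have h4 : ∑ e ∈ EE G, (pe G e ^ α - (1 + t * u) + pe G e ^ α * Real.log (1 + t * u)) ≤
      ∑ e ∈ EE G, α * (pe G e ^ α * Real.log (pe G e)) := sum_le_sum fun e he => by
    have a0 : 0 < pe G e := by linarith [one_le_pe he]
    have a1 : 0 < pe G e ^ α := by positivity
    have a2 : 0 < 1 + t * u := by positivity
    have a3 := Real.log_le_sub_one_of_pos (div_pos a2 a1)
    rw [Real.log_div a2.ne' a1.ne', Real.log_rpow a0] at a3
    have a4 := mul_le_mul_of_nonneg_left a3 a1.le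
    have a5 : pe G e ^ α * ((1 + t * u) / pe G e ^ α - 1) = 1 + t * u - pe G e ^ α := by
      field_simp
    linarith
  simp only [sum_add_distrib, sum_sub_distrib, ← sum_mul, ← mul_sum, sum_const, nsmul_eq_mul,
    hS'] at h4
  have h5 := mul_le_mul_of_nonneg_left h3 hα0.le
  have h6 := scale_ineq hu.le (by linarith) ht0 ht1 h
  rw [e1] at h6
  have h7 : Real.log (1 + t * u) ≤ t * u := by
    linarith [Real.log_le_sub_one_of_pos (show 0 < 1 + t * u by positivity)]
  have h8 : 0 < 1 + Real.log (1 + t * u) - α * Real.log D :=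
    (mul_pos_iff_of_pos_left p).1 (by linarith)
  have h9 : t * u * (EE G).card ≤ S - (EE G).card := by
    have := mul_le_mul_of_nonneg_left hW ht0.le
    linarith
  have h10 := mul_le_mul_of_nonneg_right h9 h8.le
  have h11 := mul_lt_mul_of_pos_left h6 hE
  refine lt_of_mul_lt_mul_left (a := α) ?_ hα0.le
  linarith

theorem log_crit {D : ℕ} (hD : 6 ≤ D) :
    ((D : ℝ) - 13 / 4) * Real.log D < (1 + ((D : ℝ) - 13 / 4)) * Real.log (1 + ((D : ℝ) - 13 / 4)) := by
  have k : ∀ (x y : ℝ) (a b : ℕ), 0 < x → x ^ a < y ^ b → a * Real.log x < b * Real.log y := by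
    intro x y a b hx h
    rw [← Real.log_pow, ← Real.log_pow]
    exact Real.log_lt_log (by positivity) h
  by_cases h : D ≤ 9
  · interval_cases D
    · have := k 6 (15 / 4) 11 15 (by norm_num) (by norm_num)
      norm_num at this ⊢
      linarith
    · have := k 7 (19 / 4) 15 19 (by norm_num) (by norm_num)
      norm_num at this ⊢
      linarith
    · have := k 8 (23 / 4) 19 23 (by norm_num) (by norm_num)
      norm_num at this ⊢
      linarith
    · have := k 9 (27 / 4) 23 27 (by norm_num) (by norm_num)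
      norm_num at this ⊢
      linarith
  have h1 : (10 : ℝ) ≤ D := by exact_mod_cast (by omega : 10 ≤ D)
  have h2 := k 2 10 13 4 (by norm_num) (by norm_num)
  have h3 := Real.log_two_gt_d9
  have h4 := Real.log_le_log (by norm_num) h1
  have h5 : 0 < 1 + ((D : ℝ) - 13 / 4) := by linarith
  have h6 := Real.log_le_sub_one_of_pos (div_pos (show (0 : ℝ) < D by linarith) h5)
  rw [Real.log_div (by linarith) h5.ne'] at h6
  have h7 := mul_le_mul_of_nonneg_left h6 h5.le
  have h8 : (1 + ((D : ℝ) - 13 / 4)) * (D / (1 + ((D : ℝ) - 13 / 4)) - 1) = 9 / 4 := by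
    rw [mul_sub, mul_div_cancel₀ _ h5.ne']
    ring
  push_cast at h2
  linarith

theorem unique_sparse (hc : G.Connected) (ht : G ≠ ⊤)
    (hm : (EE G).card ≤ 6 * Fintype.card V ∨ 9 * (EE G).card ^ 2 ≤ 16 * Fintype.card V ^ 3) :
    ∃! α : ℝ, hG G α = 0 := by
  obtain ⟨c, -, -, h⟩ := exists_zero hc (a := 0) (b := 2) (by norm_num)
    (mul_neg_of_neg_of_pos (h_neg hc ht le_rfl) (h_pos hc ht (by norm_num)))
  suffices key : ∀ a b, hG G a = 0 → hG G b = 0 → ¬ a < b from
    ⟨c, h, fun y hy => le_antisymm (not_lt.1 (key c y h hy)) (not_lt.1 (key y c hy h))⟩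
  have : Nonempty V := hc.nonempty
  obtain ⟨e0, -, he0⟩ := exists_max_image univ (fun e : V × V => G.dist e.1 e.2) univ_nonempty
  by_cases h4 : G.dist e0.1 e0.2 ≤ 4
  · exact fun a b ha hb hab =>
      (four_pos hc ht (fun x y => (he0 (x, y) (mem_univ _)).trans h4) hab ha).ne' hb
  obtain ⟨k, c1, c2, c3⟩ := count_path hc e0.1 e0.2 (by omega)
  have c4 := arith (by omega) c2 c3 (c1 ▸ hm)
  have hE : (0 : ℝ) < (EE G).card := by
    obtain ⟨f, -, -, ha, -⟩ := geo hc e0.1 e0.2
    have : (f 0, f (0 + 1)) ∈ EE G := mem_EE.2 (ha 0 (by omega))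
    exact_mod_cast Finset.card_pos.2 ⟨_, this⟩
  obtain ⟨D, hD⟩ : ∃ D, D = G.dist e0.1 e0.2 := ⟨_, rfl⟩
  rw [← hD] at he0 h4 c4
  have hle : ∀ e, de G e ≤ D := fun e => by unfold de; exact_mod_cast he0 e (mem_univ e)
  have D5 : (5 : ℝ) ≤ D := by exact_mod_cast (by omega : 5 ≤ D)
  obtain ⟨u, hu, h1, h2⟩ : ∃ u : ℝ, 0 < u ∧ u * Real.log D < (1 + u) * Real.log (1 + u) ∧
      (1 + u) * (EE G).card ≤ ∑ e ∈ PP V, de G e := by
    rw [sum_PP_de]
    split_ifs at c4 with h5
    · refine ⟨2, by norm_num, ?_, ?_⟩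
      · have := Real.log_lt_log (show (0 : ℝ) < 5 ^ 2 by norm_num) (show _ < (3 : ℝ) ^ 3 by norm_num)
        rw [Real.log_pow, Real.log_pow] at this
        rw [h5]
        norm_num at this ⊢
        linarith
      · have c5 := (Nat.cast_le (α := ℝ)).2 c4
        push_cast at c5
        linarith
    · refine ⟨D - 13 / 4, by linarith, log_crit (by omega), ?_⟩
      have c5 := (Nat.cast_le (α := ℝ)).2 c4
      rw [Nat.cast_mul, Nat.cast_sub (by omega)] at c5
      push_cast at c5
      linarith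
  exact fun a b ha hb => zero_unique (deriv_h hc) (fun α h0 => by
    have := deriv_pos' hc hu hle (by linarith) h1 hE h2 (zero_mem hc ht h0).1 (zero_mem hc ht h0).2 h0
    linarith) ha hb

theorem unique_max (hc : G.Connected) (ht : G ≠ ⊤) {n : ℕ} (hn : Fintype.card V = n)
    (hm : (G.edgeSet.ncard : ℝ) ≤ max (3 * (n : ℝ))
      (max (2 / 3) (Real.log n ^ (3 / 4 : ℝ) / 10 ^ 7) * (n : ℝ) ^ (3 / 2 : ℝ))) :
    ∃! α : ℝ, hG G α = 0 := by
  have hE : ((EE G).card : ℝ) = 2 * G.edgeSet.ncard := by rw [card_EE]; push_cast; rfl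
  rcases le_max_iff.1 hm with h | h
  · refine unique_sparse hc ht (Or.inl ?_)
    rw [hn, ← Nat.cast_le (α := ℝ)]
    push_cast
    linarith
  have small : (G.edgeSet.ncard : ℝ) ≤ 2 / 3 * (n : ℝ) ^ (3 / 2 : ℝ) → ∃! α : ℝ, hG G α = 0 := by
    intro h
    refine unique_sparse hc ht (Or.inr ?_)
    rw [hn, ← Nat.cast_le (α := ℝ)]
    push_cast
    have h1 := pow_le_pow_left₀ (by positivity) h 2
    rw [mul_pow, ← Real.rpow_natCast (_ ^ (3 / 2 : ℝ)), ← Real.rpow_mul (by positivity)] at h1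
    norm_num at h1
    rw [hE]
    linarith
  rcases le_total (Real.log n ^ (3 / 4 : ℝ) / 10 ^ 7) (2 / 3) with h' | h'
  · exact small (by rwa [max_eq_left h'] at h)
  rw [max_eq_right h'] at h
  have hn' : ⌈Real.exp (100 ^ 4)⌉₊ ≤ n := by
    by_contra hn'
    have h1 : (n : ℝ) < Real.exp (100 ^ 4) := Nat.lt_ceil.1 (not_le.1 hn')
    have n1 : (1 : ℝ) ≤ n := by
      have : Nonempty V := hc.nonempty
      exact_mod_cast hn ▸ Fintype.card_pos
    have h2 : Real.log n ≤ 100 ^ 4 := (Real.log_le_iff_le_exp (by linarith)).2 h1.le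
    have h3 : Real.log n ^ (3 / 4 : ℝ) ≤ 100 ^ 3 := by
      refine (Real.rpow_le_rpow (Real.log_nonneg n1) h2 (by norm_num)).trans_eq ?_
      rw [← Real.rpow_natCast, ← Real.rpow_mul (by norm_num), ← Real.rpow_natCast]
      norm_num
    linarith
  obtain ⟨l, σ, hl, hσ0, hσ, h2, e⟩ := params hn'
  have : 0 ≤ σ ^ 3 * l ^ 3 := by have : 0 < l := by linarith
                                 positivity
  exact unique_zero hc ht hl hσ0 hσ (hn ▸ h2) (by linarith)

end Pool.Agent.MP_dd6dde_co.Thr
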